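import Pool.Agent.Helper91.NC.N
import Pool.Agent.Helper91.EC.Fin1

set_option autoImplicit false
set_option linter.unusedSectionVars false
set_option maxHeartbeats 1000000

namespace Pool.Agent.Helper91.NC

open Finset SimpleGraph Pool.Agent.Helper91.EC

variable {V : Type} [Fintype V] [DecidableEq V] (G : SimpleGraph V) [DecidableRel G.Adj]

/-- a path closed up by one more vertex -/
theorem cycle_of_path (L : ℕ) (w a b : V) (p : G.Walk a b) (hp : p.IsPath) (hw : w ∉ p.support)
    (ha : G.Adj w a) (hb : G.Adj w b) (hlen : p.length = L) : (cycleGraph (L + 2)) ⊑ G := by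
  apply contained_of_fun G L (fun i => if i.val ≤ L then p.getVert i.val else w)
  · intro i j hij
    simp only at hij
    have hinj := hp.getVert_injOn
    by_cases ci : i.val ≤ L
    · by_cases cj : j.val ≤ L
      · simp only [ci, cj, if_true] at hij
        exact Fin.ext (hinj (by rw [Set.mem_ofPred_eq]; omega) (by rw [Set.mem_ofPred_eq]; omega) hij)
      · simp only [ci, cj, if_true, if_false] at hij
        exact absurd (hij ▸ p.getVert_mem_support i.val) hw
    · by_cases cj : j.val ≤ L
      · simp only [ci, cj, if_true, if_false] at hij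
        exact absurd (hij ▸ p.getVert_mem_support j.val) hw
      · have h1 := i.2
        have h2 := j.2
        apply Fin.ext; omega
  · intro i
    by_cases c : i.val = L + 1
    · have hi : i + 1 = 0 := by
        have : i = Fin.last _ := Fin.ext (by simp [c])
        rw [this]; exact Fin.last_add_one _
      have c' : ¬ i.val ≤ L := by omega
      simp only [c', if_false, hi, Fin.val_zero, Nat.zero_le, if_true, Walk.getVert_zero]
      exact ha
    · have h2 := i.2
      have hi : (i + 1).val = i.val + 1 := by
        rw [Fin.val_add_one_of_lt]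
        rw [Fin.lt_def]; simp; omega
      have c' : i.val ≤ L := by omega
      simp only [c', if_true, hi]
      by_cases c2 : i.val + 1 ≤ L
      · simp only [c2, if_true]
        exact p.adj_getVert_succ (by omega)
      · simp only [c2, if_false]
        have : i.val = p.length := by omega
        rw [this, Walk.getVert_length]
        exact hb.symm

/-- a fresh common neighbour -/
theorem fresh1 (a : V) (B U : Finset V) (s : ℝ) (h : (B.card : ℝ) - dg G a B ≤ s)
    (hU : s + U.card < B.card) : ∃ b ∈ B, b ∉ U ∧ G.Adj a b := by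
  by_contra hcon
  push Not at hcon
  have h1 : B.filter (G.Adj a) ⊆ U := by
    intro b hb
    rw [mem_filter] at hb
    by_contra hc
    exact hcon b hb.1 hc hb.2
  have h2 : (dg G a B : ℝ) ≤ U.card := by exact_mod_cast card_le_card h1
  linarith

theorem fresh2 (a a' : V) (B U : Finset V) (s : ℝ) (h : (B.card : ℝ) - dg G a B ≤ s)
    (h' : (B.card : ℝ) - dg G a' B ≤ s) (hU : 2 * s + U.card < B.card) :
    ∃ b ∈ B, b ∉ U ∧ G.Adj a b ∧ G.Adj a' b := by
  by_contra hcon
  push Not at hcon
  have h1 : B.filter (G.Adj a) ⊆ U ∪ B.filter (fun b => ¬ G.Adj a' b) := by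
    intro b hb
    rw [mem_filter] at hb
    rw [mem_union, mem_filter]
    by_contra hc
    rw [not_or] at hc
    exact hc.2 ⟨hb.1, hcon b hb.1 hc.1 hb.2⟩
  have h2 := (card_le_card h1).trans (card_union_le _ _)
  have h3 : (B.filter (G.Adj a')).card + (B.filter (fun b => ¬ G.Adj a' b)).card = B.card :=
    card_filter_add_card_filter_not _
  have h4 : dg G a B + dg G a' B ≤ U.card + B.card := by
    unfold dg; omega
  have h5 : (dg G a B : ℝ) + dg G a' B ≤ U.card + B.card := by exact_mod_cast h4
  linarith

/-- paths of all odd lengths between the two sides of a nearly complete pair -/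
theorem nb_path (A B : Finset V) (s : ℝ) (hAB : Disjoint A B)
    (mA : ∀ a ∈ A, (B.card : ℝ) - dg G a B ≤ s) (mB : ∀ b ∈ B, (A.card : ℝ) - dg G b A ≤ s) (hs : 0 ≤ s) (D : ℕ)
    (hA : 2 * s + (D + 1) < A.card) (hB : 2 * s + (D + 1) < B.card) (k : ℕ) :
    ∀ (X : Finset V) (a b : V), a ∈ A → b ∈ B → a ∉ X → b ∉ X → X.card + 2 * k ≤ D → (k = 0 → G.Adj a b) →
      ∃ p : G.Walk a b, p.IsPath ∧ p.length = 2 * k + 1 ∧ ∀ x ∈ p.support, x ∉ X := by
  induction k with
  | zero =>
    intro X a b ha hb haX hbX hX hab
    refine ⟨Walk.cons (hab rfl) Walk.nil, ?_, by simp, ?_⟩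
    · rw [Walk.cons_isPath_iff]
      refine ⟨by simp, ?_⟩
      simp only [Walk.support_nil, List.mem_singleton]
      exact (hab rfl).ne
    · intro x hx
      simp only [Walk.support_cons, Walk.support_nil, List.mem_cons, List.not_mem_nil, or_false] at hx
      rcases hx with rfl | rfl
      · exact haX
      · exact hbX
  | succ k ih =>
    intro X a b ha hb haX hbX hX _
    have hXD : ((X.card : ℕ) : ℝ) ≤ D := by exact_mod_cast (by omega)
    obtain ⟨b', hb'B, hb'U, hab'⟩ := fresh1 G a B (insert b X) s (mA a ha) (by
      have : ((insert b X).card : ℝ) ≤ X.card + 1 := by exact_mod_cast card_insert_le _ _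
      linarith)
    obtain ⟨a'', ha''A, ha''U, hb'a'', hba''⟩ := fresh2 G b' b A (insert a X) s (mB b' hb'B) (mB b hb) (by
      have : ((insert a X).card : ℝ) ≤ X.card + 1 := by exact_mod_cast card_insert_le _ _
      linarith)
    rw [mem_insert, not_or] at hb'U ha''U
    have hb'a : b' ≠ a := fun e => Finset.disjoint_left.mp hAB ha (e ▸ hb'B)
    have ha''b' : a'' ≠ b' := hb'a''.ne.symm
    have hba : b ≠ a := fun e => Finset.disjoint_left.mp hAB ha (e ▸ hb)
    obtain ⟨p, hp, hlen, hpX⟩ := ih (insert a (insert b' X)) a'' b ha''A hb (by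
        rw [mem_insert, mem_insert]
        push Not
        exact ⟨ha''U.1, ha''b', ha''U.2⟩) (by
        rw [mem_insert, mem_insert]
        push Not
        exact ⟨hba, Ne.symm hb'U.1, hbX⟩) (by
        have h1 := card_insert_le a (insert b' X)
        have h2 := card_insert_le b' X
        omega) (fun _ => hba''.symm)
    refine ⟨Walk.cons hab' (Walk.cons hb'a'' p), ?_, ?_, ?_⟩
    · rw [Walk.cons_isPath_iff, Walk.cons_isPath_iff]
      refine ⟨⟨hp, ?_⟩, ?_⟩
      · intro h
        exact hpX _ h (by simp)
      · rw [Walk.support_cons, List.mem_cons, not_or]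
        refine ⟨Ne.symm hb'a, ?_⟩
        intro h
        exact hpX _ h (by simp)
    · simp only [Walk.length_cons, hlen]; ring
    · intro x hx
      simp only [Walk.support_cons, List.mem_cons] at hx
      rcases hx with rfl | rfl | hx
      · exact haX
      · exact hb'U.2
      · intro h
        exact hpX x hx (by simp [h])

/-- no vertex has a neighbour in `A` and many neighbours in `B` -/
theorem excl (A B : Finset V) (s n : ℝ) (h : NB G A B s n) (hs0 : 0 < s) (hs : s ≤ 1 / 80) (hn : 20 < n)
    (k : ℕ) (hk : ((2 * k + 3 : ℕ) : ℝ) ≤ 2 / 5 * n) (hno : ¬ (cycleGraph (2 * k + 3)) ⊑ G)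
    (v a : V) (ha : a ∈ A) (hva : G.Adj v a) : (dg G v B : ℝ) ≤ s * n := by
  by_contra hcon
  push Not at hcon
  have hsn : 0 < s * n := by positivity
  obtain ⟨b, hbB, hvb, hab⟩ : ∃ b ∈ B, G.Adj v b ∧ G.Adj a b := by
    by_contra hc
    push Not at hc
    have h1 : B.filter (G.Adj v) ⊆ B.filter (fun b => ¬ G.Adj a b) := by
      intro b hb
      rw [mem_filter] at hb ⊢
      exact ⟨hb.1, hc b hb.1 hb.2⟩
    have h2 := card_le_card h1
    have h3 : (B.filter (G.Adj a)).card + (B.filter (fun b => ¬ G.Adj a b)).card = B.card :=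
      card_filter_add_card_filter_not _
    have h4 : dg G v B + dg G a B ≤ B.card := by unfold dg; omega
    have h5 : (dg G v B : ℝ) + dg G a B ≤ B.card := by exact_mod_cast h4
    have := h.mA a ha
    linarith
  apply hno
  have hkn : 2 * (k : ℝ) + 3 ≤ 2 / 5 * n := by
    have : ((2 * k + 3 : ℕ) : ℝ) = 2 * k + 3 := by push_cast; ring
    linarith
  have hsn2 : s * n ≤ 1 / 80 * n := mul_le_mul_of_nonneg_right hs (by linarith)
  have hcA := h.cA
  have hcB := h.cB
  obtain ⟨p, hp, hlen, hpX⟩ := nb_path G A B (s * n) h.disj h.mA h.mB hsn.le (2 * k + 1)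
    (by push_cast; linarith) (by push_cast; linarith) k {v} a b ha hbB (by
      rw [mem_singleton]; exact hva.ne.symm) (by rw [mem_singleton]; exact hvb.ne.symm)
    (by rw [card_singleton]; omega) (fun _ => hab)
  have := cycle_of_path G (2 * k + 1) v a b p hp (fun hv => hpX v hv (by simp)) hva hvb hlen
  exact this

/-- cycle replacement for the switched graph -/
theorem sw_free' (m : ℕ) (hm : 1 ≤ m) (z : V) (P : Finset V)
    (hcn : ∀ a ∈ P, ∀ b ∈ P, a ≠ b → ∀ U : Finset V, U.card ≤ m + 2 → ∃ c, c ∉ U ∧ G.Adj c a ∧ G.Adj c b)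
    (h : ¬ (cycleGraph (m + 2)) ⊑ G) : ¬ (cycleGraph (m + 2)) ⊑ sw G z P := by
  intro hc
  apply h
  obtain ⟨f, hf, hadj⟩ := fun_of_contained _ _ hc
  by_cases hz : ∃ i0, f i0 = z
  · obtain ⟨i0, hi0⟩ := hz
    obtain ⟨j, hj⟩ : ∃ j : Fin (m + 2), j + 1 = i0 := ⟨i0 - 1, sub_add_cancel _ _⟩
    have h1 : f (i0 + 1) ∈ P := by
      have := hadj i0
      rw [hi0] at this
      rcases this with ⟨h1, -, -⟩ | ⟨-, h2, -⟩ | ⟨h1, -, h3⟩
      · exact absurd rfl h1
      · exact h2
      · exact absurd rfl h3
    have h2 : f j ∈ P := by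
      have := hadj j
      rw [hj, hi0] at this
      rcases this with ⟨-, h1, -⟩ | ⟨h1, h2, h3⟩ | ⟨-, h1, -⟩
      · exact absurd rfl h1
      · exact absurd rfl h3
      · exact h1
    have hne : f (i0 + 1) ≠ f j := by
      intro e
      have := hf e
      rw [← hj] at this
      exact two_ne_zero_fin m (by omega) j this
    obtain ⟨c, hcU, hc1, hc2⟩ := hcn _ h1 _ h2 hne (univ.image f) (by
      refine card_image_le.trans ?_
      simp)
    have hcf : ∀ i, f i ≠ c := fun i e => hcU (mem_image.mpr ⟨i, mem_univ _, e⟩)
    apply contained_of_fun G m (Function.update f i0 c)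
    · intro a b hab
      by_cases ca : a = i0
      · by_cases cb : b = i0
        · rw [ca, cb]
        · rw [ca, Function.update_self, Function.update_of_ne cb] at hab
          exact absurd hab.symm (hcf b)
      · by_cases cb : b = i0
        · rw [cb, Function.update_self, Function.update_of_ne ca] at hab
          exact absurd hab (hcf a)
        · rw [Function.update_of_ne ca, Function.update_of_ne cb] at hab
          exact hf hab
    · intro i
      by_cases ci : i = i0
      · subst ci
        have : i + 1 ≠ i := by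
          intro e
          have := hadj i
          rw [e] at this
          exact this.ne rfl
        rw [Function.update_self, Function.update_of_ne this]
        exact hc1
      · by_cases ci1 : i + 1 = i0
        · rw [ci1, Function.update_self, Function.update_of_ne ci]
          have : i = j := by
            have := ci1.trans hj.symm
            exact add_right_cancel this
          rw [this]; exact hc2.symm
        · rw [Function.update_of_ne ci, Function.update_of_ne ci1]
          rcases hadj i with ⟨-, -, h3⟩ | ⟨h1, -, -⟩ | ⟨h1, -, -⟩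
          · exact h3
          · exact absurd (hf (h1.trans hi0.symm)) ci
          · exact absurd (hf (h1.trans hi0.symm)) ci1
  · push Not at hz
    apply contained_of_fun G m f hf
    intro i
    rcases hadj i with ⟨-, -, h3⟩ | ⟨h1, -, -⟩ | ⟨h1, -, -⟩
    · exact h3
    · exact absurd h1 (hz _)
    · exact absurd h1 (hz _)

end Pool.Agent.Helper91.NC
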