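import Pool.Agent.Helper91.EC.Fin1

set_option autoImplicit false
set_option linter.unusedSectionVars false
set_option maxHeartbeats 1000000

namespace Pool.Agent.Helper91.NC

open Finset SimpleGraph Pool.Agent.Helper91.EC

variable {V : Type} [Fintype V] [DecidableEq V] (G : SimpleGraph V) [DecidableRel G.Adj]

theorem card_interedges_eq (S T : Finset V) : ((G.interedges S T).card : ℝ) = ∑ v ∈ S, (dg G v T : ℝ) := by
  unfold SimpleGraph.interedges Rel.interedges dg
  rw [card_filter, sum_product]
  push_cast
  refine sum_congr rfl fun v _ => ?_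
  rw [card_filter]
  push_cast
  rfl

/-- all but few vertices of one side of a uniform pair have many neighbours in a large subset of the
other side -/
theorem typical (S T' T : Finset V) (e d : ℝ) (hU : G.IsUniform e S T')
    (hd : d ≤ (G.edgeDensity S T' : ℝ)) (hT : T ⊆ T') (hTc : e * T'.card ≤ T.card) (hTpos : 0 < T.card)
    (hS : 0 < S.card) :
    ((S.filter fun v => (dg G v T : ℝ) < (d - e) * T.card).card : ℝ) < e * S.card := by
  by_contra hcon
  push Not at hcon
  set B := S.filter fun v => (dg G v T : ℝ) < (d - e) * T.card with hB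
  have he : 0 < e := hU.pos
  have hSr : (0 : ℝ) < S.card := by exact_mod_cast hS
  have hBpos : (0 : ℝ) < B.card := lt_of_lt_of_le (by positivity) hcon
  have hTr : (0 : ℝ) < T.card := by exact_mod_cast hTpos
  have h1 := hU (filter_subset _ S : B ⊆ S) hT (by rw [mul_comm]; exact hcon) (by rw [mul_comm]; exact hTc)
  have h2 : d - e < (G.edgeDensity B T : ℝ) := by
    have := (abs_lt.mp h1).1
    linarith
  have h3 : (G.edgeDensity B T : ℝ) = (∑ v ∈ B, (dg G v T : ℝ)) / (B.card * T.card) := by
    rw [← card_interedges_eq, SimpleGraph.edgeDensity_def]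
    push_cast
    rfl
  rw [h3, lt_div_iff₀ (by positivity)] at h2
  have h4 : ∑ v ∈ B, (dg G v T : ℝ) ≤ ∑ v ∈ B, (d - e) * T.card :=
    sum_le_sum fun v hv => (mem_filter.mp hv).2.le
  rw [sum_const, nsmul_eq_mul] at h4
  nlinarith

variable {ι : Type} [DecidableEq ι]

/-- the vertices of colour `i` -/
def Cl (cl : V → ι) (i : ι) : Finset V := univ.filter fun v => cl v = i

theorem mem_Cl (cl : V → ι) (i : ι) (v : V) : v ∈ Cl cl i ↔ cl v = i := by simp [Cl]

theorem embed (cl : V → ι) (R : SimpleGraph ι) (m : ℕ) (e d η : ℝ)
    (hsz : ∀ i, m ≤ (Cl cl i).card ∧ (Cl cl i).card ≤ m + 1)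
    (hR : ∀ i j, R.Adj i j → G.IsUniform e (Cl cl i) (Cl cl j) ∧ d ≤ (G.edgeDensity (Cl cl i) (Cl cl j) : ℝ))
    (hd0 : 0 < d) (hd1 : d ≤ 1) (hdη : d ≤ η) (he : e = d ^ 2 / 32) (hm : 8 ≤ d * m)
    (l : ℕ) (hl : 3 ≤ l) (c : ℕ → ι)
    (hc : ∀ j, j + 1 < l → R.Adj (c j) (c (j + 1))) (hcl : R.Adj (c (l - 1)) (c 0))
    (hv : ∀ i, (((range l).filter fun j => c j = i).card : ℝ) ≤ (1 - η) * m) :
    (cycleGraph l) ⊑ G := by
  have hm0 : (0 : ℝ) < m := by
    by_contra h
    push Not at h
    have : (m : ℝ) = 0 := le_antisymm h (by positivity)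
    rw [this, mul_zero] at hm; linarith
  have hm8 : (8 : ℝ) ≤ m := by nlinarith
  have he0 : 0 < e := by rw [he]; positivity
  have hed : e ≤ d / 32 := by rw [he]; nlinarith
  have hC0 : ∀ i, 0 < (Cl cl i).card := by
    intro i
    have h1 := (hsz i).1
    have h2 : 0 < m := by exact_mod_cast hm0
    omega
  have hCm : ∀ i, (m : ℝ) ≤ (Cl cl i).card := fun i => by exact_mod_cast (hsz i).1
  have hCm1 : ∀ i, ((Cl cl i).card : ℝ) ≤ m + 1 := fun i => by exact_mod_cast (hsz i).2
  -- the first vertex
  set b := c (l - 1) with hb
  have h01 : R.Adj (c 0) (c 1) := hc 0 (by omega)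
  have h0b : R.Adj (c 0) b := hcl.symm
  obtain ⟨v0, hv0C, hv0a, hv0b⟩ : ∃ v0, v0 ∈ Cl cl (c 0) ∧ (d - e) * (Cl cl (c 1)).card ≤ dg G v0 (Cl cl (c 1)) ∧
      (d - e) * (Cl cl b).card ≤ dg G v0 (Cl cl b) := by
    have t1 := typical G (Cl cl (c 0)) (Cl cl (c 1)) (Cl cl (c 1)) e d (hR _ _ h01).1 (hR _ _ h01).2 subset_rfl
      (by nlinarith [hCm (c 1)]) (hC0 _) (hC0 _)
    have t2 := typical G (Cl cl (c 0)) (Cl cl b) (Cl cl b) e d (hR _ _ h0b).1 (hR _ _ h0b).2 subset_rfl
      (by nlinarith [hCm b]) (hC0 _) (hC0 _)
    set B1 := (Cl cl (c 0)).filter fun v => (dg G v (Cl cl (c 1)) : ℝ) < (d - e) * (Cl cl (c 1)).card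
    set B2 := (Cl cl (c 0)).filter fun v => (dg G v (Cl cl b) : ℝ) < (d - e) * (Cl cl b).card
    have h3 : (B1 ∪ B2).card < (Cl cl (c 0)).card := by
      have a1 : ((B1 ∪ B2).card : ℝ) ≤ B1.card + B2.card := by exact_mod_cast card_union_le _ _
      have a2 : ((B1 ∪ B2).card : ℝ) < (Cl cl (c 0)).card := by nlinarith [hCm (c 0)]
      exact_mod_cast a2
    obtain ⟨v, hv, hvn⟩ := Finset.exists_mem_notMem_of_card_lt_card h3
    rw [mem_union, not_or, mem_filter, mem_filter] at hvn
    push Not at hvn
    exact ⟨v, hv, hvn.1 hv, hvn.2 hv⟩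
  -- the reserved set
  set z : ℕ := ⌊d * m / 4⌋₊ with hz
  have hz1 : (z : ℝ) ≤ d * m / 4 := Nat.floor_le (by positivity)
  have hz2 : d * m / 8 ≤ z := by
    have := Nat.lt_floor_add_one (d * m / 4)
    linarith
  obtain ⟨Z, hZ, hZc⟩ : ∃ Z ⊆ (Cl cl b).filter (G.Adj v0), Z.card = z := by
    apply Finset.exists_subset_card_eq
    have a1 : (z : ℝ) ≤ ((Cl cl b).filter (G.Adj v0)).card := by
      have : ((Cl cl b).filter (G.Adj v0)).card = dg G v0 (Cl cl b) := rfl
      rw [this]
      nlinarith [hCm b]
    exact_mod_cast a1
  have hZb : Z ⊆ Cl cl b := hZ.trans (filter_subset _ _)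
  have hZadj : ∀ y ∈ Z, G.Adj v0 y := fun y hy => (mem_filter.mp (hZ hy)).2
  have hv0Z : v0 ∉ Z := fun h => (hZadj v0 h).ne rfl
  -- targets
  set T : ℕ → Finset V := fun j => if j = l - 1 then Z else Cl cl (c j) \ Z with hT
  have hTC : ∀ j, T j ⊆ Cl cl (c j) := by
    intro j
    simp only [hT]
    split_ifs with h
    · rw [h]; exact hZb
    · exact sdiff_subset
  have hcdisj : ∀ i j, i ≠ j → Disjoint (Cl cl i) (Cl cl j) := by
    intro i j hij
    rw [Finset.disjoint_left]
    intro v h1 h2
    rw [mem_Cl] at h1 h2
    exact hij (h1.symm.trans h2)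
  -- the inductive claim
  have key : ∀ j, j + 1 < l → ∃ v : ℕ → V, v 0 = v0 ∧ (∀ i ≤ j, v i ∈ Cl cl (c i)) ∧
      (∀ i ≤ j, v i ∉ Z) ∧ (∀ i ≤ j, ∀ i' ≤ j, v i = v i' → i = i') ∧
      (∀ i < j, G.Adj (v i) (v (i + 1))) ∧
      (d - e) * z ≤ dg G (v j) (T (j + 1) \ (range (j + 1)).image v) := by
    intro j
    induction j with
    | zero =>
      intro hj
      refine ⟨fun _ => v0, rfl, ?_, ?_, ?_, ?_, ?_⟩
      · intro i hi
        have : i = 0 := by omega
        rw [this]; exact hv0C
      · intro i _; exact hv0Z
      · intro i hi i' hi' _; omega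
      · intro i hi; omega
      · have hT1 : T (0 + 1) = Cl cl (c 1) \ Z := by
          simp only [hT]
          rw [if_neg (by omega)]
        rw [hT1]
        have a1 : (dg G v0 (Cl cl (c 1)) : ℝ) ≤ dg G v0 ((Cl cl (c 1) \ Z) \ (range (0 + 1)).image (fun _ => v0)) + z := by
          have : (Cl cl (c 1)).filter (G.Adj v0) ⊆
              (((Cl cl (c 1) \ Z) \ (range (0 + 1)).image (fun _ => v0)).filter (G.Adj v0)) ∪ Z := by
            intro y hy
            rw [mem_filter] at hy
            rw [mem_union, mem_filter, mem_sdiff, mem_sdiff]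
            by_cases hyZ : y ∈ Z
            · right; exact hyZ
            · left
              refine ⟨⟨⟨hy.1, hyZ⟩, ?_⟩, hy.2⟩
              intro h
              simp at h
              rw [← h] at hy
              exact hy.2.ne rfl
          have a2 := card_le_card this
          have a3 := card_union_le (((Cl cl (c 1) \ Z) \ (range (0 + 1)).image (fun _ => v0)).filter (G.Adj v0)) Z
          have a4 : dg G v0 (Cl cl (c 1)) ≤ dg G v0 ((Cl cl (c 1) \ Z) \ (range (0 + 1)).image (fun _ => v0)) + z := by
            unfold dg; omega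
          exact_mod_cast a4
        nlinarith [hCm (c 1)]
    | succ j ih =>
      intro hj
      obtain ⟨v, hv0, hvC, hvZ, hvinj, hvadj, hvdg⟩ := ih (by omega)
      set U := (range (j + 1)).image v with hU
      -- candidates
      have hadjR : R.Adj (c (j + 1)) (c (j + 2)) := hc (j + 1) hj
      -- size of the next target outside U
      have hTsz : (z : ℝ) ≤ (T (j + 2) \ U).card := by
        by_cases hlast : j + 2 = l - 1
        · have : T (j + 2) \ U = Z := by
            simp only [hT]
            rw [if_pos hlast]
            apply sdiff_eq_self_of_disjoint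
            rw [Finset.disjoint_right]
            intro y hy
            rw [hU, mem_image] at hy
            obtain ⟨i, hi, rfl⟩ := hy
            exact hvZ i (by rw [mem_range] at hi; omega)
          rw [this, hZc]
        · have : T (j + 2) = Cl cl (c (j + 2)) \ Z := by
            simp only [hT]
            rw [if_neg hlast]
          rw [this]
          have a1 : (U ∩ Cl cl (c (j + 2))).card ≤ ((range l).filter fun i => c i = c (j + 2)).card := by
            have : U ∩ Cl cl (c (j + 2)) ⊆ ((range l).filter fun i => c i = c (j + 2)).image v := by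
              intro y hy
              rw [mem_inter, hU, mem_image] at hy
              obtain ⟨⟨i, hi, rfl⟩, hy2⟩ := hy
              rw [mem_range] at hi
              rw [mem_image]
              refine ⟨i, ?_, rfl⟩
              rw [mem_filter, mem_range]
              refine ⟨by omega, ?_⟩
              have h1 := hvC i (by omega)
              rw [mem_Cl] at h1 hy2
              rw [← h1, ← hy2]
            exact (card_le_card this).trans card_image_le
          have a2 : (Cl cl (c (j + 2))).card ≤ ((Cl cl (c (j + 2)) \ Z) \ U).card + Z.card + (U ∩ Cl cl (c (j + 2))).card := by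
            have : Cl cl (c (j + 2)) ⊆ ((Cl cl (c (j + 2)) \ Z) \ U) ∪ Z ∪ (U ∩ Cl cl (c (j + 2))) := by
              intro y hy
              simp only [mem_union, mem_sdiff, mem_inter]
              tauto
            have b1 := card_le_card this
            have b2 := card_union_le (((Cl cl (c (j + 2)) \ Z) \ U) ∪ Z) (U ∩ Cl cl (c (j + 2)))
            have b3 := card_union_le ((Cl cl (c (j + 2)) \ Z) \ U) Z
            omega
          have a3 := hv (c (j + 2))
          have a4 : ((Cl cl (c (j + 2))).card : ℝ) ≤ ((Cl cl (c (j + 2)) \ Z) \ U).card + z +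
              ((range l).filter fun i => c i = c (j + 2)).card := by
            have : (Cl cl (c (j + 2))).card ≤ ((Cl cl (c (j + 2)) \ Z) \ U).card + z +
              ((range l).filter fun i => c i = c (j + 2)).card := by omega
            exact_mod_cast this
          have a5 := hCm (c (j + 2))
          nlinarith
      have hTpos : 0 < (T (j + 2) \ U).card := by
        have : (0 : ℝ) < (T (j + 2) \ U).card := by
          have : 0 < d * m / 8 := by positivity
          linarith
        exact_mod_cast this
      have t1 := typical G (Cl cl (c (j + 1))) (Cl cl (c (j + 2))) (T (j + 2) \ U) e d (hR _ _ hadjR).1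
        (hR _ _ hadjR).2 (sdiff_subset.trans (hTC _)) (by
          have a1 := hCm1 (c (j + 2))
          have a2 : e * (Cl cl (c (j + 2))).card ≤ e * (m + 1) := mul_le_mul_of_nonneg_left a1 he0.le
          nlinarith) hTpos (hC0 _)
      set Bad := (Cl cl (c (j + 1))).filter fun y => (dg G y (T (j + 2) \ U) : ℝ) < (d - e) * (T (j + 2) \ U).card
      have hcard : Bad.card < ((T (j + 1) \ U).filter (G.Adj (v j))).card := by
        have a1 : (Bad.card : ℝ) < (dg G (v j) (T (j + 1) \ U) : ℝ) := by
          refine lt_of_lt_of_le t1 ?_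
          refine le_trans ?_ hvdg
          have a1 := hCm1 (c (j + 1))
          have a2 : e * (Cl cl (c (j + 1))).card ≤ e * (m + 1) := mul_le_mul_of_nonneg_left a1 he0.le
          have a3 : e * (m + 1) ≤ (d - e) * z := by
            have b1 : (d / 2) * (d * m / 8) ≤ (d - e) * z := by
              apply mul_le_mul _ hz2 (by positivity) (by linarith)
              linarith
            have b2 : e * (m + 1) ≤ d ^ 2 / 32 * (2 * m) := by rw [he]; nlinarith [sq_nonneg d]
            nlinarith
          linarith
        have a2 : Bad.card < dg G (v j) (T (j + 1) \ U) := by exact_mod_cast a1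
        exact a2
      obtain ⟨w, hw, hwn⟩ := Finset.exists_mem_notMem_of_card_lt_card hcard
      rw [mem_filter, mem_sdiff] at hw
      have hwC : w ∈ Cl cl (c (j + 1)) := hTC _ hw.1.1
      have hwdg : (d - e) * (T (j + 2) \ U).card ≤ dg G w (T (j + 2) \ U) := by
        by_contra hcon
        push Not at hcon
        exact hwn (mem_filter.mpr ⟨hwC, hcon⟩)
      have hwZ : w ∉ Z := by
        have : T (j + 1) = Cl cl (c (j + 1)) \ Z := by
          simp only [hT]
          rw [if_neg (by omega)]
        rw [this, mem_sdiff] at hw
        exact hw.1.1.2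
      have hwU : ∀ i ≤ j, v i ≠ w := by
        intro i hi e'
        apply hw.1.2
        rw [hU, mem_image]
        exact ⟨i, by rw [mem_range]; omega, e'⟩
      refine ⟨Function.update v (j + 1) w, ?_, ?_, ?_, ?_, ?_, ?_⟩
      · rw [Function.update_of_ne (by omega)]; exact hv0
      · intro i hi
        by_cases hij : i = j + 1
        · rw [hij, Function.update_self]; exact hwC
        · rw [Function.update_of_ne hij]; exact hvC i (by omega)
      · intro i hi
        by_cases hij : i = j + 1
        · rw [hij, Function.update_self]; exact hwZ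
        · rw [Function.update_of_ne hij]; exact hvZ i (by omega)
      · intro i hi i' hi' hii
        by_cases hij : i = j + 1
        · by_cases hij' : i' = j + 1
          · omega
          · rw [hij, Function.update_self, Function.update_of_ne hij'] at hii
            exact absurd hii.symm (hwU i' (by omega))
        · by_cases hij' : i' = j + 1
          · rw [hij', Function.update_self, Function.update_of_ne hij] at hii
            exact absurd hii (hwU i (by omega))
          · rw [Function.update_of_ne hij, Function.update_of_ne hij'] at hii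
            exact hvinj i (by omega) i' (by omega) hii
      · intro i hi
        by_cases hij : i = j
        · rw [hij, Function.update_self, Function.update_of_ne (by omega)]
          exact hw.2
        · rw [Function.update_of_ne (by omega), Function.update_of_ne (by omega)]
          exact hvadj i (by omega)
      · rw [Function.update_self]
        have hUe : T (j + 1 + 1) \ (range (j + 1 + 1)).image (Function.update v (j + 1) w) = T (j + 2) \ U := by
          ext y
          simp only [mem_sdiff]
          constructor
          · rintro ⟨h1, h2⟩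
            refine ⟨h1, fun h3 => h2 ?_⟩
            rw [hU, mem_image] at h3
            obtain ⟨i, hi, rfl⟩ := h3
            rw [mem_range] at hi
            rw [mem_image]
            exact ⟨i, by rw [mem_range]; omega, by rw [Function.update_of_ne (by omega)]⟩
          · rintro ⟨h1, h2⟩
            refine ⟨h1, fun h3 => ?_⟩
            rw [mem_image] at h3
            obtain ⟨i, hi, hiy⟩ := h3
            rw [mem_range] at hi
            by_cases hij : i = j + 1
            · rw [hij, Function.update_self] at hiy
              have h4 := hTC _ h1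
              rw [← hiy] at h4
              exact Finset.disjoint_left.mp (hcdisj _ _ hadjR.ne) hwC h4
            · rw [Function.update_of_ne hij] at hiy
              apply h2
              rw [hU, mem_image]
              exact ⟨i, by rw [mem_range]; omega, hiy⟩
        rw [hUe]
        refine le_trans ?_ hwdg
        apply mul_le_mul_of_nonneg_left hTsz
        linarith
  obtain ⟨v, hv0, hvC, hvZ, hvinj, hvadj, hvdg⟩ := key (l - 2) (by omega)
  have hT' : T (l - 2 + 1) = Z := by
    simp only [hT]
    rw [if_pos (by omega)]
  rw [hT'] at hvdg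
  have hpos : 0 < dg G (v (l - 2)) (Z \ (range (l - 2 + 1)).image v) := by
    have : (0 : ℝ) < dg G (v (l - 2)) (Z \ (range (l - 2 + 1)).image v) := by
      refine lt_of_lt_of_le ?_ hvdg
      apply mul_pos
      · linarith
      · have : 0 < d * m / 8 := by positivity
        linarith
    exact_mod_cast this
  obtain ⟨w, hw⟩ := card_pos.mp hpos
  rw [mem_filter, mem_sdiff] at hw
  have hwU : ∀ i ≤ l - 2, v i ≠ w := by
    intro i hi e'
    apply hw.1.2
    rw [mem_image]
    exact ⟨i, by rw [mem_range]; omega, e'⟩
  obtain ⟨l', hl'⟩ : ∃ l', l = l' + 2 := ⟨l - 2, by omega⟩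
  subst hl'
  apply contained_of_fun G l' (fun i => if i.val ≤ l' then v i.val else w)
  · intro i j hij
    simp only at hij
    by_cases ci : i.val ≤ l'
    · by_cases cj : j.val ≤ l'
      · simp only [ci, cj, if_true] at hij
        exact Fin.ext (hvinj _ (by omega) _ (by omega) hij)
      · simp only [ci, cj, if_true, if_false] at hij
        exact absurd hij (hwU _ (by omega))
    · by_cases cj : j.val ≤ l'
      · simp only [ci, cj, if_true, if_false] at hij
        exact absurd hij.symm (hwU _ (by omega))
      · apply Fin.ext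
        have h1 := i.2
        have h2 := j.2
        omega
  · intro i
    by_cases ci : i.val = l' + 1
    · have hi : i + 1 = 0 := by
        have : i = Fin.last _ := Fin.ext (by simp [ci])
        rw [this]; exact Fin.last_add_one _
      have c' : ¬ i.val ≤ l' := by omega
      simp only [c', if_false, hi, Fin.val_zero, Nat.zero_le, if_true]
      rw [hv0]
      exact (hZadj w hw.1.1).symm
    · have h2 := i.2
      have hi : (i + 1).val = i.val + 1 := by
        rw [Fin.val_add_one_of_lt]
        rw [Fin.lt_def]; simp; omega
      have c' : i.val ≤ l' := by omega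
      simp only [c', if_true, hi]
      by_cases c2 : i.val + 1 ≤ l'
      · simp only [c2, if_true]
        exact hvadj _ (by omega)
      · simp only [c2, if_false]
        have : i.val = l' + 2 - 2 := by omega
        rw [this]
        exact hw.2

end Pool.Agent.Helper91.NC
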