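import Mathlib

set_option autoImplicit false
set_option linter.unusedSectionVars false
set_option maxHeartbeats 1000000

namespace Pool.Agent.Helper91.NC

open Finset SimpleGraph

/-- deficiency version of Hall's theorem for the bipartite double cover -/
theorem hall {ι : Type} [Fintype ι] [DecidableEq ι] (R : SimpleGraph ι) [DecidableRel R.Adj] (K : Finset ι) (τ : ℕ) :
    (∃ M : Finset (ι × ι), τ ≤ M.card ∧ (∀ p ∈ M, p.1 ∈ K ∧ R.Adj p.1 p.2) ∧
      (∀ p ∈ M, ∀ q ∈ M, p.1 = q.1 → p = q) ∧ (∀ p ∈ M, ∀ q ∈ M, p.2 = q.2 → p = q)) ∨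
    ∃ S ⊆ K, (K \ S).card + (univ.filter fun j => ∃ i ∈ S, R.Adj i j).card < τ := by
  by_cases hex : ∃ S ⊆ K, (K \ S).card + (univ.filter fun j => ∃ i ∈ S, R.Adj i j).card < τ
  · exact Or.inr hex
  left
  push Not at hex
  have hKτ : τ ≤ K.card := by
    have := hex ∅ (empty_subset _)
    simpa using this
  obtain ⟨D, hD⟩ : ∃ D, K.card = τ + D := ⟨K.card - τ, by omega⟩
  let t : {i // i ∈ K} → Finset (ι ⊕ Fin D) := fun i =>
    (univ.filter fun j => R.Adj i.1 j).disjSum univ
  have hall : ∀ s : Finset {i // i ∈ K}, s.card ≤ (s.biUnion t).card := by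
    intro s
    rcases s.eq_empty_or_nonempty with rfl | hs
    · simp
    have hsub : (univ.filter fun j => ∃ i ∈ s.map (Function.Embedding.subtype _), R.Adj i j).disjSum (univ : Finset (Fin D)) ⊆
        s.biUnion t := by
      intro z hz
      rw [mem_biUnion]
      rcases z with j | d
      · rw [inl_mem_disjSum, mem_filter] at hz
        obtain ⟨-, i, hi, hij⟩ := hz
        rw [mem_map] at hi
        obtain ⟨i', hi', rfl⟩ := hi
        refine ⟨i', hi', ?_⟩
        simp only [t, inl_mem_disjSum, mem_filter, mem_univ, true_and]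
        exact hij
      · obtain ⟨i, hi⟩ := hs
        refine ⟨i, hi, ?_⟩
        simp only [t, inr_mem_disjSum, mem_univ]
    have h1 := card_le_card hsub
    rw [card_disjSum, card_univ, Fintype.card_fin] at h1
    have hSK : s.map (Function.Embedding.subtype _) ⊆ K := by
      intro i hi
      rw [mem_map] at hi
      obtain ⟨i', _, rfl⟩ := hi
      exact i'.2
    have h2 := hex _ hSK
    have h3 := card_sdiff_add_card_eq_card hSK
    rw [card_map] at h3
    omega
  obtain ⟨f, hfinj, hf⟩ := (Finset.all_card_le_biUnion_card_iff_exists_injective t).mp hall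
  let M : Finset (ι × ι) := univ.filter fun p => ∃ h : p.1 ∈ K, f ⟨p.1, h⟩ = Sum.inl p.2
  refine ⟨M, ?_, ?_, ?_, ?_⟩
  · -- size
    have h1 : (univ : Finset {i // i ∈ K}) ⊆ (univ.filter fun i => ∃ j, f i = Sum.inl j) ∪
        (univ.filter fun i => ∃ d, f i = Sum.inr d) := by
      intro i _
      rw [mem_union, mem_filter, mem_filter]
      rcases hfi : f i with j | d
      · left; exact ⟨mem_univ _, j, rfl⟩
      · right; exact ⟨mem_univ _, d, rfl⟩
    have h2 := (card_le_card h1).trans (card_union_le _ _)
    rw [card_univ, Fintype.card_coe] at h2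
    have h3 : (univ.filter fun i => ∃ d, f i = Sum.inr d).card ≤ D := by
      have : (univ.filter fun i => ∃ d, f i = Sum.inr d).image f ⊆ (univ : Finset (Fin D)).image Sum.inr := by
        intro z hz
        rw [mem_image] at hz
        obtain ⟨i, hi, rfl⟩ := hz
        rw [mem_filter] at hi
        obtain ⟨-, d, hd⟩ := hi
        rw [mem_image]
        exact ⟨d, mem_univ _, hd.symm⟩
      have h4 := card_le_card this
      rw [card_image_of_injective _ hfinj] at h4
      refine h4.trans (card_image_le.trans ?_)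
      simp
    have h5 : (univ.filter fun i => ∃ j, f i = Sum.inl j).card ≤ M.card := by
      have : (univ.filter fun i => ∃ j, f i = Sum.inl j) ⊆ ((M.image Prod.fst).subtype (· ∈ K)) := by
        intro i hi
        rw [mem_filter] at hi
        obtain ⟨-, j, hj⟩ := hi
        rw [mem_subtype, mem_image]
        refine ⟨(i.1, j), ?_, rfl⟩
        simp only [M, mem_filter, mem_univ, true_and]
        exact ⟨i.2, hj⟩
      have h6 := card_le_card this
      rw [card_subtype] at h6
      exact h6.trans ((card_filter_le _ _).trans card_image_le)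
    omega
  · intro p hp
    simp only [M, mem_filter, mem_univ, true_and] at hp
    obtain ⟨h, hp⟩ := hp
    refine ⟨h, ?_⟩
    have := hf ⟨p.1, h⟩
    rw [hp] at this
    simp only [t, inl_mem_disjSum, mem_filter, mem_univ, true_and] at this
    exact this
  · intro p hp q hq hpq
    simp only [M, mem_filter, mem_univ, true_and] at hp hq
    obtain ⟨h1, hp⟩ := hp
    obtain ⟨h2, hq⟩ := hq
    have : (⟨p.1, h1⟩ : {i // i ∈ K}) = ⟨q.1, h2⟩ := Subtype.ext hpq
    rw [this, hq] at hp
    exact Prod.ext hpq (Sum.inl.inj hp).symm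
  · intro p hp q hq hpq
    simp only [M, mem_filter, mem_univ, true_and] at hp hq
    obtain ⟨h1, hp⟩ := hp
    obtain ⟨h2, hq⟩ := hq
    rw [hpq, ← hq] at hp
    have := hfinj hp
    exact Prod.ext (congrArg Subtype.val this) hpq

end Pool.Agent.Helper91.NC
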