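import Pool.Agent.Helper91.EC.Spec
import Pool.Agent.Helper91.EC.Est

set_option autoImplicit false
set_option linter.unusedSectionVars false
set_option maxHeartbeats 1000000

namespace Pool.Agent.Helper91.NC

open Finset SimpleGraph Pool.Agent.Helper91.EC

variable {V : Type} [Fintype V] [DecidableEq V]

/-- a nearly complete balanced bipartite pair -/
structure NB (G : SimpleGraph V) [DecidableRel G.Adj] (A B : Finset V) (s n : ℝ) : Prop where
  disj : Disjoint A B
  cA : (1 / 2 - 2 * s) * n ≤ A.card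
  cB : (1 / 2 - 2 * s) * n ≤ B.card
  mA : ∀ a ∈ A, (B.card : ℝ) - dg G a B ≤ s * n
  mB : ∀ b ∈ B, (A.card : ℝ) - dg G b A ≤ s * n

variable (G : SimpleGraph V) [DecidableRel G.Adj]

theorem NB.symm' {A B : Finset V} {s n : ℝ} (h : NB G A B s n) : NB G B A s n :=
  ⟨h.disj.symm, h.cB, h.cA, h.mB, h.mA⟩

theorem dg_le_card (a : V) (B : Finset V) : dg G a B ≤ B.card := card_filter_le _ _

theorem dg_mono (a : V) {B C : Finset V} (h : B ⊆ C) : dg G a B ≤ dg G a C :=
  card_le_card (filter_subset_filter _ h)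

theorem dg_union_le (a : V) (B C : Finset V) : dg G a (B ∪ C) ≤ dg G a B + dg G a C := by
  unfold dg
  rw [filter_union]
  exact card_union_le _ _

theorem sum_dg_comm (A B : Finset V) : ∑ a ∈ A, dg G a B = ∑ b ∈ B, dg G b A := by
  unfold dg
  simp only [card_filter]
  rw [sum_comm]
  refine sum_congr rfl fun b _ => sum_congr rfl fun a _ => ?_
  simp only [G.adj_comm]

/-- Nosal type inequality -/
theorem nosal (htri : ∀ u v w, G.Adj u v → G.Adj v w → G.Adj w u → False) (y : V → ℝ) (hy : y ≠ 0) (μ : ℝ)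
    (hμ : 0 ≤ μ) (h : μ * S2 y ≤ Q G y) : 2 * μ ^ 2 ≤ ∑ u, (dg G u univ : ℝ) := by
  set E2 : ℝ := ∑ u, (dg G u univ : ℝ) with hE2
  have hS := S2_pos y hy
  have h1 : ∀ v, 2 * ∑ u ∈ univ.filter (fun u => G.Adj v u), (dg G u univ : ℝ) ≤ E2 := by
    intro v
    have e1 : ∑ u ∈ univ.filter (fun u => G.Adj v u), dg G u univ ≤ ∑ u ∈ univ.filter (fun u => ¬ G.Adj v u), dg G u univ := by
      have a1 : ∑ u ∈ univ.filter (fun u => G.Adj v u), dg G u univ =
          ∑ u ∈ univ.filter (fun u => G.Adj v u), dg G u (univ.filter (fun u => ¬ G.Adj v u)) := by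
        refine sum_congr rfl fun u hu => ?_
        rw [mem_filter] at hu
        unfold dg
        congr 1
        ext w
        simp only [mem_filter, mem_univ, true_and]
        constructor
        · intro hw
          exact ⟨fun hvw => htri v u w hu.2 hw hvw.symm, hw⟩
        · exact fun h => h.2
      rw [a1, sum_dg_comm]
      exact sum_le_sum fun u _ => dg_mono G u (subset_univ _)
    have e2 : ∑ u ∈ univ.filter (fun u => G.Adj v u), dg G u univ + ∑ u ∈ univ.filter (fun u => ¬ G.Adj v u), dg G u univ =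
        ∑ u, dg G u univ := sum_filter_add_sum_filter_not _ _ _
    have e3 : 2 * ∑ u ∈ univ.filter (fun u => G.Adj v u), dg G u univ ≤ ∑ u, dg G u univ := by omega
    rw [hE2]
    exact_mod_cast e3
  have h2 : Q G y ^ 2 ≤ S2 y * ∑ u, nb G y u ^ 2 := by
    unfold Q S2
    exact sum_mul_sq_le_sq_mul_sq _ _ _
  have h3 : ∀ u, nb G y u ^ 2 ≤ (dg G u univ : ℝ) * ∑ v ∈ univ.filter (fun v => G.Adj u v), y v ^ 2 := by
    intro u
    have e : nb G y u = ∑ v ∈ univ.filter (fun v => G.Adj u v), y v := by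
      unfold nb
      rw [sum_filter]
      refine sum_congr rfl fun v _ => ?_
      congr
    rw [e]
    exact sq_sum_le_card_mul_sum_sq
  have h4 : 2 * ∑ u, nb G y u ^ 2 ≤ E2 * S2 y := by
    calc 2 * ∑ u, nb G y u ^ 2 ≤ 2 * ∑ u, (dg G u univ : ℝ) * ∑ v ∈ univ.filter (fun v => G.Adj u v), y v ^ 2 := by
          have := sum_le_sum fun u (_ : u ∈ (univ : Finset V)) => h3 u
          linarith
      _ = ∑ v, y v ^ 2 * (2 * ∑ u ∈ univ.filter (fun u => G.Adj v u), (dg G u univ : ℝ)) := by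
          simp only [mul_sum, sum_filter]
          rw [sum_comm]
          refine sum_congr rfl fun v _ => sum_congr rfl fun u _ => ?_
          by_cases c : G.Adj u v
          · simp [c, c.symm]; ring
          · have c' : ¬ G.Adj v u := fun h => c h.symm
            simp [c, c']
      _ ≤ ∑ v, y v ^ 2 * E2 := sum_le_sum fun v _ => mul_le_mul_of_nonneg_left (h1 v) (sq_nonneg _)
      _ = E2 * S2 y := by unfold S2; rw [← sum_mul, mul_comm]
  have h5 : (μ * S2 y) ^ 2 ≤ Q G y ^ 2 := pow_le_pow_left₀ (mul_nonneg hμ hS.le) h 2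
  have h6 : 2 * μ ^ 2 * S2 y ^ 2 ≤ E2 * S2 y ^ 2 := by nlinarith
  exact le_of_mul_le_mul_right h6 (by positivity)

theorem nearbip (htri : ∀ u v w, G.Adj u v → G.Adj v w → G.Adj w u → False) (y : V → ℝ) (hy : y ≠ 0)
    (n e s : ℝ) (hn : n = Fintype.card V) (hn0 : 0 < n) (he : 0 ≤ e) (he1 : e ≤ 1 / 100) (hs0 : 0 < s) (hs : 9 * e ≤ s ^ 2)
    (hs1 : s ≤ 1 / 10)
    (h : ((1 / 2 - e) * n) * S2 y ≤ Q G y) : ∃ A B : Finset V, NB G A B s n := by
  set E2 : ℝ := ∑ u, (dg G u univ : ℝ) with hE2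
  have h0 := nosal G htri y hy ((1 / 2 - e) * n) (mul_nonneg (by linarith) hn0.le) h
  rw [← hE2] at h0
  have hE : (1 / 2 - 2 * e) * n ^ 2 ≤ E2 := by
    refine le_trans ?_ h0
    have : 0 ≤ e ^ 2 * n ^ 2 := by positivity
    nlinarith
  have hEpos : 0 < E2 := lt_of_lt_of_le (mul_pos (by linarith) (by positivity)) hE
  -- an edge with large degree sum
  obtain ⟨u, v, huv, hdeg⟩ : ∃ u v, G.Adj u v ∧ (1 - 4 * e) * n ≤ (dg G u univ : ℝ) + dg G v univ := by
    by_contra hcon
    push Not at hcon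
    have a1 : ∑ u, (dg G u univ : ℝ) * ((dg G u univ : ℝ)) + ∑ u, (dg G u univ : ℝ) * ((dg G u univ : ℝ)) =
        ∑ u, ∑ v ∈ univ.filter (fun v => G.Adj u v), ((dg G u univ : ℝ) + dg G v univ) := by
      have b1 : ∑ u, ∑ v ∈ univ.filter (fun v => G.Adj u v), (dg G u univ : ℝ) = ∑ u, (dg G u univ : ℝ) * (dg G u univ : ℝ) := by
        refine sum_congr rfl fun u _ => ?_
        rw [sum_const, nsmul_eq_mul]; rfl
      have b2 : ∑ u, ∑ v ∈ univ.filter (fun v => G.Adj u v), (dg G v univ : ℝ) = ∑ u, (dg G u univ : ℝ) * (dg G u univ : ℝ) := by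
        rw [← b1]
        simp only [sum_filter]
        rw [sum_comm]
        refine sum_congr rfl fun v _ => sum_congr rfl fun u _ => ?_
        simp only [G.adj_comm]
      simp only [sum_add_distrib]
      rw [b1, b2]
    have a2 : ∑ u, ∑ v ∈ univ.filter (fun v => G.Adj u v), ((dg G u univ : ℝ) + dg G v univ) ≤
        ∑ u, (dg G u univ : ℝ) * ((1 - 4 * e) * n) := by
      refine sum_le_sum fun u _ => ?_
      calc _ ≤ ∑ v ∈ univ.filter (fun v => G.Adj u v), ((1 - 4 * e) * n) :=
            sum_le_sum fun v hv => (hcon u v (mem_filter.mp hv).2).le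
        _ = _ := by rw [sum_const, nsmul_eq_mul]; rfl
    have a3 : ∃ u, 0 < (dg G u univ : ℝ) := by
      by_contra hc
      push Not at hc
      have : E2 ≤ 0 := sum_nonpos fun u _ => hc u
      linarith
    obtain ⟨u0, hu0⟩ := a3
    have a2' : ∑ u, ∑ v ∈ univ.filter (fun v => G.Adj u v), ((dg G u univ : ℝ) + dg G v univ) <
        ∑ u, (dg G u univ : ℝ) * ((1 - 4 * e) * n) := by
      apply sum_lt_sum
      · intro u _
        calc _ ≤ ∑ v ∈ univ.filter (fun v => G.Adj u v), ((1 - 4 * e) * n) :=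
              sum_le_sum fun v hv => (hcon u v (mem_filter.mp hv).2).le
          _ = _ := by rw [sum_const, nsmul_eq_mul]; rfl
      · refine ⟨u0, mem_univ _, ?_⟩
        have hne : (univ.filter (fun v => G.Adj u0 v)).Nonempty := by
          rw [← card_pos]
          exact_mod_cast hu0
        calc _ < ∑ v ∈ univ.filter (fun v => G.Adj u0 v), ((1 - 4 * e) * n) :=
              sum_lt_sum_of_nonempty hne fun v hv => hcon u0 v (mem_filter.mp hv).2
          _ = _ := by rw [sum_const, nsmul_eq_mul]; rfl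
    rw [← a1, ← sum_mul, ← hE2] at a2'
    have a4 : E2 ^ 2 ≤ n * ∑ u, (dg G u univ : ℝ) ^ 2 := by
      rw [hE2, hn, ← card_univ]
      exact sq_sum_le_card_mul_sum_sq
    have a5 : ∑ u, (dg G u univ : ℝ) * (dg G u univ : ℝ) = ∑ u, (dg G u univ : ℝ) ^ 2 :=
      sum_congr rfl fun u _ => by ring
    rw [a5] at a2'
    have a6 : 2 * E2 ^ 2 < E2 * ((1 - 4 * e) * n ^ 2) := by nlinarith
    nlinarith
  -- the two neighbourhoods
  set A0 : Finset V := univ.filter (fun w => G.Adj u w) with hA0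
  set B0 : Finset V := univ.filter (fun w => G.Adj v w) with hB0
  have hA0c : (dg G u univ : ℝ) = A0.card := rfl
  have hB0c : (dg G v univ : ℝ) = B0.card := rfl
  rw [hA0c, hB0c] at hdeg
  have hdisj : Disjoint A0 B0 := by
    rw [Finset.disjoint_left]
    intro w h1 h2
    rw [hA0, mem_filter] at h1
    rw [hB0, mem_filter] at h2
    exact htri u v w huv h2.2 h1.2.symm
  set R0 : Finset V := univ \ (A0 ∪ B0) with hR0
  have hcount : (A0.card : ℝ) + B0.card + R0.card = n := by
    rw [hn]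
    have h1 := card_sdiff_add_card_eq_card (subset_univ (A0 ∪ B0))
    rw [card_union_of_disjoint hdisj, card_univ] at h1
    rw [← hR0] at h1
    exact_mod_cast (by omega)
  have hR0c : (R0.card : ℝ) ≤ 4 * e * n := by linarith
  -- number of edges between A0 and B0
  set M : ℝ := ∑ a ∈ A0, (dg G a B0 : ℝ) with hM
  have hMc : M = ∑ b ∈ B0, (dg G b A0 : ℝ) := by
    rw [hM]
    exact_mod_cast sum_dg_comm G A0 B0
  have hindA : ∀ a ∈ A0, dg G a A0 = 0 := by
    intro a ha
    unfold dg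
    rw [card_eq_zero, filter_eq_empty_iff]
    intro w hw haw
    rw [hA0, mem_filter] at ha hw
    exact htri u a w ha.2 haw hw.2.symm
  have hindB : ∀ a ∈ B0, dg G a B0 = 0 := by
    intro a ha
    unfold dg
    rw [card_eq_zero, filter_eq_empty_iff]
    intro w hw haw
    rw [hB0, mem_filter] at ha hw
    exact htri v a w ha.2 haw hw.2.symm
  have huniv : (univ : Finset V) = A0 ∪ B0 ∪ R0 := by
    rw [hR0, union_sdiff_of_subset (subset_univ _)]
  have hdgA : ∀ a ∈ A0, (dg G a univ : ℝ) ≤ dg G a B0 + R0.card := by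
    intro a ha
    have h1 : dg G a univ ≤ dg G a A0 + dg G a B0 + dg G a R0 := by
      rw [huniv]
      exact (dg_union_le G a _ _).trans (Nat.add_le_add_right (dg_union_le G a _ _) _)
    have h2 := hindA a ha
    have h3 := dg_le_card G a R0
    exact_mod_cast (by omega)
  have hdgB : ∀ a ∈ B0, (dg G a univ : ℝ) ≤ dg G a A0 + R0.card := by
    intro a ha
    have h1 : dg G a univ ≤ dg G a A0 + dg G a B0 + dg G a R0 := by
      rw [huniv]
      exact (dg_union_le G a _ _).trans (Nat.add_le_add_right (dg_union_le G a _ _) _)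
    have h2 := hindB a ha
    have h3 := dg_le_card G a R0
    exact_mod_cast (by omega)
  have hE2b : E2 ≤ 2 * M + 2 * R0.card * n := by
    have h1 : E2 = ∑ a ∈ A0, (dg G a univ : ℝ) + ∑ a ∈ B0, (dg G a univ : ℝ) + ∑ a ∈ R0, (dg G a univ : ℝ) := by
      rw [hE2]
      have : ∑ a : V, (dg G a univ : ℝ) = ∑ a ∈ A0 ∪ B0 ∪ R0, (dg G a univ : ℝ) := by rw [← huniv]
      rw [this, sum_union (by rw [hR0]; exact disjoint_sdiff), sum_union hdisj]
    have h2 : ∑ a ∈ A0, (dg G a univ : ℝ) ≤ M + A0.card * R0.card := by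
      calc _ ≤ ∑ a ∈ A0, ((dg G a B0 : ℝ) + R0.card) := sum_le_sum fun a ha => hdgA a ha
        _ = _ := by rw [sum_add_distrib, sum_const, nsmul_eq_mul]
    have h3 : ∑ a ∈ B0, (dg G a univ : ℝ) ≤ M + B0.card * R0.card := by
      calc _ ≤ ∑ a ∈ B0, ((dg G a A0 : ℝ) + R0.card) := sum_le_sum fun a ha => hdgB a ha
        _ = _ := by rw [sum_add_distrib, sum_const, nsmul_eq_mul, hMc]
    have h4 : ∑ a ∈ R0, (dg G a univ : ℝ) ≤ R0.card * n := by
      calc _ ≤ ∑ a ∈ R0, n := sum_le_sum fun a _ => by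
            rw [hn]; exact dg_le_n G a
        _ = _ := by rw [sum_const, nsmul_eq_mul]
    have h5 : (0 : ℝ) ≤ R0.card := Nat.cast_nonneg _
    nlinarith
  have hMlow : (1 / 4 - 5 * e) * n ^ 2 ≤ M := by nlinarith
  -- prune
  set BA : Finset V := A0.filter fun a => s * n < (B0.card : ℝ) - dg G a B0 with hBA
  set BB : Finset V := B0.filter fun b => s * n < (A0.card : ℝ) - dg G b A0 with hBB
  have hprodle : (A0.card : ℝ) * B0.card ≤ n ^ 2 / 4 := by
    have : (A0.card : ℝ) + B0.card ≤ n := by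
      have : (0 : ℝ) ≤ R0.card := Nat.cast_nonneg _
      linarith
    nlinarith [sq_nonneg ((A0.card : ℝ) - B0.card), (Nat.cast_nonneg A0.card : (0 : ℝ) ≤ A0.card),
      (Nat.cast_nonneg B0.card : (0 : ℝ) ≤ B0.card)]
  have hMle : M ≤ A0.card * B0.card := by
    calc M ≤ ∑ a ∈ A0, (B0.card : ℝ) := sum_le_sum fun a _ => by exact_mod_cast dg_le_card G a B0
      _ = _ := by rw [sum_const, nsmul_eq_mul]
  have hsn : 0 < s * n := by positivity
  have hBAc : (BA.card : ℝ) ≤ 5 / 9 * s * n := by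
    have h1 : (BA.card : ℝ) * (s * n) ≤ A0.card * B0.card - M := by
      calc (BA.card : ℝ) * (s * n) = ∑ a ∈ BA, (s * n) := by rw [sum_const, nsmul_eq_mul]
        _ ≤ ∑ a ∈ BA, ((B0.card : ℝ) - dg G a B0) := sum_le_sum fun a ha => (mem_filter.mp ha).2.le
        _ ≤ ∑ a ∈ A0, ((B0.card : ℝ) - dg G a B0) := by
            apply sum_le_sum_of_subset_of_nonneg (filter_subset _ _)
            intro a _ _
            have : (dg G a B0 : ℝ) ≤ B0.card := by exact_mod_cast dg_le_card G a B0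
            linarith
        _ = _ := by rw [sum_sub_distrib, sum_const, nsmul_eq_mul]
    have h2 : (BA.card : ℝ) * (s * n) ≤ 5 / 9 * s * n * (s * n) := by
      refine h1.trans ?_
      nlinarith
    exact le_of_mul_le_mul_right h2 hsn
  have hBBc : (BB.card : ℝ) ≤ 5 / 9 * s * n := by
    have h1 : (BB.card : ℝ) * (s * n) ≤ A0.card * B0.card - M := by
      calc (BB.card : ℝ) * (s * n) = ∑ a ∈ BB, (s * n) := by rw [sum_const, nsmul_eq_mul]
        _ ≤ ∑ a ∈ BB, ((A0.card : ℝ) - dg G a A0) := sum_le_sum fun a ha => (mem_filter.mp ha).2.le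
        _ ≤ ∑ a ∈ B0, ((A0.card : ℝ) - dg G a A0) := by
            apply sum_le_sum_of_subset_of_nonneg (filter_subset _ _)
            intro a _ _
            have : (dg G a A0 : ℝ) ≤ A0.card := by exact_mod_cast dg_le_card G a A0
            linarith
        _ = _ := by rw [sum_sub_distrib, sum_const, nsmul_eq_mul, hMc]; ring
    have h2 : (BB.card : ℝ) * (s * n) ≤ 5 / 9 * s * n * (s * n) := by
      refine h1.trans ?_
      nlinarith
    exact le_of_mul_le_mul_right h2 hsn
  have hprod : (1 / 4 - 5 / 9 * s ^ 2) * n ^ 2 ≤ A0.card * B0.card := by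
    nlinarith [sq_nonneg n]
  have hABn : (A0.card : ℝ) + B0.card ≤ n := by
    have : (0 : ℝ) ≤ R0.card := Nat.cast_nonneg _
    linarith
  have hA0b : (1 / 2 - 3 / 4 * s) * n ≤ A0.card := by
    by_contra hc
    push Not at hc
    have h0 : (0 : ℝ) ≤ A0.card := Nat.cast_nonneg _
    have h1 : (A0.card : ℝ) * B0.card ≤ A0.card * (n - A0.card) := mul_le_mul_of_nonneg_left (by linarith) h0
    have h2 : 3 / 4 * s * n < n / 2 - A0.card := by linarith
    have h3 : (3 / 4 * s * n) ^ 2 < (n / 2 - A0.card) ^ 2 := pow_lt_pow_left₀ h2 (by positivity) (by norm_num)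
    nlinarith [mul_pos hsn hsn]
  have hB0b : (1 / 2 - 3 / 4 * s) * n ≤ B0.card := by
    by_contra hc
    push Not at hc
    have h0 : (0 : ℝ) ≤ B0.card := Nat.cast_nonneg _
    have h1 : (A0.card : ℝ) * B0.card ≤ (n - B0.card) * B0.card := mul_le_mul_of_nonneg_right (by linarith) h0
    have h2 : 3 / 4 * s * n < n / 2 - B0.card := by linarith
    have h3 : (3 / 4 * s * n) ^ 2 < (n / 2 - B0.card) ^ 2 := pow_lt_pow_left₀ h2 (by positivity) (by norm_num)
    nlinarith [mul_pos hsn hsn]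
  have hcardA : ((A0 \ BA).card : ℝ) = A0.card - BA.card := by
    rw [card_sdiff_of_subset (filter_subset _ _), Nat.cast_sub (card_le_card (filter_subset _ _))]
  have hcardB : ((B0 \ BB).card : ℝ) = B0.card - BB.card := by
    rw [card_sdiff_of_subset (filter_subset _ _), Nat.cast_sub (card_le_card (filter_subset _ _))]
  have hmiss : ∀ (a : V) (S T : Finset V), S ⊆ T → (S.card : ℝ) - dg G a S ≤ T.card - dg G a T := by
    intro a S T hST
    have h1 := card_sdiff_add_card_eq_card hST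
    have h2 : dg G a T ≤ dg G a (T \ S) + dg G a S := by
      have := dg_union_le G a (T \ S) S
      rwa [sdiff_union_of_subset hST] at this
    have h3 := dg_le_card G a (T \ S)
    have h4 : S.card + dg G a T ≤ T.card + dg G a S := by omega
    have h5 : (S.card : ℝ) + dg G a T ≤ T.card + dg G a S := by exact_mod_cast h4
    linarith
  refine ⟨A0 \ BA, B0 \ BB, ?_, ?_, ?_, ?_, ?_⟩
  · exact hdisj.mono sdiff_subset sdiff_subset
  · rw [hcardA]; nlinarith
  · rw [hcardB]; nlinarith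
  · intro a ha
    rw [mem_sdiff] at ha
    have h1 : ¬ s * n < (B0.card : ℝ) - dg G a B0 := fun h => ha.2 (mem_filter.mpr ⟨ha.1, h⟩)
    have h2 := hmiss a (B0 \ BB) B0 sdiff_subset
    linarith
  · intro b hb
    rw [mem_sdiff] at hb
    have h1 : ¬ s * n < (A0.card : ℝ) - dg G b A0 := fun h => hb.2 (mem_filter.mpr ⟨hb.1, h⟩)
    have h2 := hmiss b (A0 \ BA) A0 sdiff_subset
    linarith

end Pool.Agent.Helper91.NC
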