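import Pool.Agent.Helper91.EC.Spec

set_option autoImplicit false
set_option linter.unusedSectionVars false
set_option maxHeartbeats 1000000

namespace Pool.Agent.Helper91.NC

open Finset SimpleGraph Pool.Agent.Helper91.EC

variable {V : Type} [Fintype V]

/-- a weighted certificate bounding the quadratic form -/
theorem cert (F : SimpleGraph V) (y w : V → ℝ) (μ : ℝ) (hw : ∀ v, 0 < w v)
    (h : ∀ u, y u ≠ 0 → nb F w u < μ * w u) (hy : y ≠ 0) : Q F y < μ * S2 y := by
  classical
  set g : V → ℝ := fun u => y u ^ 2 / w u with hg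
  have hgw : ∀ u, g u * w u = y u ^ 2 := by
    intro u; simp only [hg]; field_simp [(hw u).ne']
  have hg0 : ∀ u, 0 ≤ g u := fun u => div_nonneg (sq_nonneg _) (hw u).le
  have h1 : 2 * Q F y ≤ (∑ u, g u * nb F w u) + ∑ u, w u * nb F g u := by
    unfold Q nb
    rw [mul_sum, ← sum_add_distrib]
    refine sum_le_sum fun u _ => ?_
    rw [mul_sum, mul_sum, mul_sum, mul_sum, ← sum_add_distrib]
    refine sum_le_sum fun v _ => ?_
    by_cases c : F.Adj u v
    · simp only [c, if_true]
      -- 2 y_u y_v ≤ g u w v + w u g v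
      have hu := hw u
      have hv := hw v
      have e1 : g u * w v + w u * g v - 2 * (y u * y v) = (y u * w v - y v * w u) ^ 2 / (w u * w v) := by
        simp only [hg]; field_simp; ring
      have e2 : 0 ≤ (y u * w v - y v * w u) ^ 2 / (w u * w v) := by positivity
      linarith
    · simp [c]
  rw [nb_comm F w g] at h1
  have h2 : ∑ u, g u * nb F w u < ∑ u, μ * y u ^ 2 := by
    obtain ⟨v, hv⟩ := Function.ne_iff.mp hy
    apply sum_lt_sum
    · intro u _
      by_cases c : y u = 0
      · simp [hg, c]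
      · rw [← hgw u]
        have := mul_le_mul_of_nonneg_left (h u c).le (hg0 u)
        linarith
    · refine ⟨v, mem_univ _, ?_⟩
      have hv' : y v ≠ 0 := hv
      have hgp : 0 < g v := div_pos (by positivity) (hw v)
      have := mul_lt_mul_of_pos_left (h v hv') hgp
      rw [← hgw v]
      linarith
  have h3 : ∑ u, μ * y u ^ 2 = μ * S2 y := by unfold S2; rw [mul_sum]
  linarith

/-- restriction to a component -/
theorem comp {γ : Type} [Fintype γ] [DecidableEq γ] (F : SimpleGraph V) (κ : V → γ)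
    (hκ : ∀ u v, F.Adj u v → κ u = κ v) (x : V → ℝ) (hx : x ≠ 0) (μ : ℝ) (h : μ * S2 x ≤ Q F x) :
    ∃ c : γ, (fun v => if κ v = c then x v else 0) ≠ 0 ∧
      μ * S2 (fun v => if κ v = c then x v else 0) ≤ Q F (fun v => if κ v = c then x v else 0) := by
  classical
  by_contra hcon
  push Not at hcon
  have hS : ∑ c, S2 (fun v => if κ v = c then x v else 0) = S2 x := by
    unfold S2
    rw [sum_comm]
    refine sum_congr rfl fun v _ => ?_
    rw [sum_eq_single (κ v)]
    · simp
    · intro c _ hc
      show (if κ v = c then x v else 0) ^ 2 = 0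
      rw [if_neg (Ne.symm hc)]; simp
    · intro h; exact absurd (mem_univ _) h
  have hQ : ∑ c, Q F (fun v => if κ v = c then x v else 0) = Q F x := by
    unfold Q
    rw [sum_comm]
    refine sum_congr rfl fun v _ => ?_
    rw [sum_eq_single (κ v)]
    · simp only [if_true]
      congr 1
      unfold nb
      refine sum_congr rfl fun w _ => ?_
      by_cases c : F.Adj v w
      · rw [if_pos c, if_pos c]
        show (if κ w = κ v then x w else 0) = x w
        rw [if_pos (hκ v w c).symm]
      · rw [if_neg c, if_neg c]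
    · intro c _ hc
      show (if κ v = c then x v else 0) * _ = 0
      rw [if_neg (Ne.symm hc)]; simp
    · intro h; exact absurd (mem_univ _) h
  have hlt : ∑ c, Q F (fun v => if κ v = c then x v else 0) < ∑ c, μ * S2 (fun v => if κ v = c then x v else 0) := by
    apply sum_lt_sum
    · intro c _
      by_cases c0 : (fun v => if κ v = c then x v else 0) = 0
      · rw [c0]; simp [Q, S2]
      · exact (hcon c c0).le
    · obtain ⟨v, hv⟩ := Function.ne_iff.mp hx
      refine ⟨κ v, mem_univ _, hcon _ ?_⟩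
      intro e
      have := congrFun e v
      simp only [if_true] at this
      exact hv this
  rw [← mul_sum, hS, hQ] at hlt
  linarith

/-- removing few edges changes the quadratic form only a little -/
theorem few_edges (G F : SimpleGraph V) (hFG : F ≤ G) (x : V → ℝ) (hx : ∀ v, 0 ≤ x v) (η n : ℝ) (hη : 0 ≤ η) (hn : 0 ≤ n)
    (hfew : (by classical exact ((univ.filter fun p : V × V => G.Adj p.1 p.2 ∧ ¬ F.Adj p.1 p.2).card : ℝ)) ≤
      η ^ 2 * n ^ 2) :
    Q G x ≤ Q F x + η * n * S2 x := by
  classical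
  set B := univ.filter fun p : V × V => G.Adj p.1 p.2 ∧ ¬ F.Adj p.1 p.2 with hB
  have h1 : Q G x = Q F x + ∑ p ∈ B, x p.1 * x p.2 := by
    rw [hB, sum_filter, ← univ_product_univ, sum_product]
    unfold Q nb
    rw [← sum_add_distrib]
    refine sum_congr rfl fun u _ => ?_
    rw [mul_sum, mul_sum, ← sum_add_distrib]
    refine sum_congr rfl fun v _ => ?_
    by_cases c : F.Adj u v
    · have := hFG c
      simp [c, this]
    · by_cases c2 : G.Adj u v
      · simp [c, c2]
      · simp [c, c2]
  have h2 : (∑ p ∈ B, x p.1 * x p.2) ^ 2 ≤ B.card * ∑ p ∈ B, (x p.1 * x p.2) ^ 2 := by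
    exact sq_sum_le_card_mul_sum_sq
  have h3 : ∑ p ∈ B, (x p.1 * x p.2) ^ 2 ≤ S2 x ^ 2 := by
    calc ∑ p ∈ B, (x p.1 * x p.2) ^ 2 ≤ ∑ p : V × V, (x p.1 * x p.2) ^ 2 :=
          sum_le_sum_of_subset_of_nonneg (subset_univ _) fun p _ _ => sq_nonneg _
      _ = S2 x ^ 2 := by
          rw [← univ_product_univ, sum_product]
          unfold S2
          rw [sq, sum_mul_sum]
          refine sum_congr rfl fun u _ => sum_congr rfl fun v _ => by ring
  have hS := S2_nonneg x
  have hfew' : (B.card : ℝ) ≤ η ^ 2 * n ^ 2 := by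
    refine le_trans (le_of_eq ?_) hfew
    rw [hB]
  have h4 : (∑ p ∈ B, x p.1 * x p.2) ^ 2 ≤ (η * n * S2 x) ^ 2 := by
    refine h2.trans ?_
    calc (B.card : ℝ) * ∑ p ∈ B, (x p.1 * x p.2) ^ 2 ≤ (η ^ 2 * n ^ 2) * S2 x ^ 2 :=
          mul_le_mul hfew' h3 (sum_nonneg fun p _ => sq_nonneg _) (by positivity)
      _ = _ := by ring
  have h5 : 0 ≤ ∑ p ∈ B, x p.1 * x p.2 := sum_nonneg fun p _ => mul_nonneg (hx _) (hx _)
  have h6 := (abs_le_of_sq_le_sq' h4 (by positivity)).2
  linarith

/-- the cover certificate -/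
theorem cover_cert [DecidableEq V] (F : SimpleGraph V) (KV X Y : Finset V) (y : V → ℝ) (hy : y ≠ 0)
    (hsupp : ∀ v, y v ≠ 0 → v ∈ KV) (hK : ∀ u v, F.Adj u v → u ∈ KV → v ∈ KV)
    (hXY : ∀ u v, F.Adj u v → u ∈ KV → u ∈ X ∨ v ∈ Y)
    (c δ e n : ℝ) (hn : 0 < n) (hnc : (Fintype.card V : ℝ) = n) (hc : c ^ 2 - 3 * c + 1 = 0) (hc1 : c ≤ 0.382) (hc0 : 0.38 ≤ c)
    (hδ : 0 < δ) (he : 0 < e) (he1 : 3 * e ≤ δ) (he2 : e ≤ 1 / 100)
    (hcard : (X.card : ℝ) + Y.card ≤ (c - δ) * n) :
    Q F y < ((1 / 2 - e) * n) * S2 y := by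
  classical
  obtain ⟨α, hα⟩ : ∃ α : ℝ, α = ((X ∩ Y).card : ℝ) / n := ⟨_, rfl⟩
  obtain ⟨ρ, hρ⟩ : ∃ ρ : ℝ, ρ = (((X ∪ Y) \ (X ∩ Y)).card : ℝ) / n := ⟨_, rfl⟩
  have hα0 : 0 ≤ α := by rw [hα]; positivity
  have hρ0 : 0 ≤ ρ := by rw [hρ]; positivity
  have hαn : ((X ∩ Y).card : ℝ) = α * n := by rw [hα, div_mul_cancel₀ _ hn.ne']
  have hρn : (((X ∪ Y) \ (X ∩ Y)).card : ℝ) = ρ * n := by rw [hρ, div_mul_cancel₀ _ hn.ne']
  have hsum : 2 * α + ρ ≤ c - δ := by
    have h1 := card_union_add_card_inter X Y
    have h2 := card_sdiff_add_card_eq_card (s := X ∩ Y) (t := X ∪ Y) (inter_subset_union)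
    have h3 : (X.card : ℝ) + Y.card = 2 * (X ∩ Y).card + ((X ∪ Y) \ (X ∩ Y)).card := by
      have : X.card + Y.card = 2 * (X ∩ Y).card + ((X ∪ Y) \ (X ∩ Y)).card := by omega
      exact_mod_cast this
    rw [h3, hαn, hρn] at hcard
    have : (2 * α + ρ) * n ≤ (c - δ) * n := by linarith
    exact le_of_mul_le_mul_right this hn
  set wh : ℝ := 2 * α + 0.31 with hwh
  set w0 : ℝ := 2 * α + 2 * e with hw0
  have hw00 : 0 < w0 := by positivity
  have hwh0 : 0 < wh := by positivity
  have cA : α < (1 / 2 - e) * w0 := by rw [hw0]; nlinarith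
  have cB : α + ρ * wh < (1 / 2 - e) * wh := by
    rw [hwh]
    nlinarith [sq_nonneg (2 * α - 0.036), mul_nonneg hα0 hρ0]
  have cC : α + ρ * wh + (1 - α - ρ) * w0 < 1 / 2 - e := by
    rw [hwh, hw0]
    have h1 : 0 ≤ ((c - δ) / 2 - α) * (2.38 - 2 * ((c - δ) / 2 + α)) := by
      apply mul_nonneg
      · linarith
      · linarith
    nlinarith [mul_nonneg he.le hα0, mul_nonneg he.le hρ0, mul_nonneg hα0 hρ0, mul_pos hδ hδ]
  set w : V → ℝ := fun v => if v ∈ X ∩ Y then 1 else if v ∈ X ∪ Y then wh else w0 with hw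
  apply cert F y w _ ?_ ?_ hy
  · intro v
    simp only [hw]
    split_ifs
    · norm_num
    · exact hwh0
    · exact hw00
  · intro u hu
    have huK := hsupp u hu
    have hwpos : ∀ v, 0 ≤ w v := by
      intro v
      simp only [hw]
      split_ifs
      · norm_num
      · exact hwh0.le
      · exact hw00.le
    have hsum1 : ∑ v ∈ X ∩ Y, w v = α * n := by
      rw [← hαn, sum_congr rfl (g := fun _ => (1 : ℝ))]
      · simp
      · intro v hv; simp only [hw, hv, if_true]
    have hsum2 : ∑ v ∈ (X ∪ Y) \ (X ∩ Y), w v = ρ * n * wh := by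
      rw [← hρn, sum_congr rfl (g := fun _ => wh)]
      · rw [sum_const, nsmul_eq_mul]
      · intro v hv
        rw [mem_sdiff] at hv
        simp only [hw, hv.1, hv.2, if_false, if_true]
    by_cases c1 : u ∈ X ∩ Y
    · -- heavy
      have hwu : w u = 1 := by simp only [hw, c1, if_true]
      rw [hwu, mul_one]
      have hnb : nb F w u ≤ ∑ v, w v := by
        unfold nb
        refine sum_le_sum fun v _ => ?_
        split_ifs
        · exact le_rfl
        · exact hwpos v
      have hsum3 : ∑ v, w v = α * n + ρ * n * wh + (n - α * n - ρ * n) * w0 := by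
        have e1 : ∑ v, w v = ∑ v ∈ X ∪ Y, w v + ∑ v ∈ (univ \ (X ∪ Y)), w v := by
          rw [add_comm, sum_sdiff (subset_univ _)]
        have e2 : ∑ v ∈ X ∪ Y, w v = ∑ v ∈ (X ∪ Y) \ (X ∩ Y), w v + ∑ v ∈ X ∩ Y, w v := by
          rw [sum_sdiff inter_subset_union]
        have e3 : ∑ v ∈ (univ \ (X ∪ Y)), w v = (n - α * n - ρ * n) * w0 := by
          rw [sum_congr rfl (g := fun _ => w0)]
          · rw [sum_const, nsmul_eq_mul]
            congr 1
            have h1 := card_sdiff_add_card_eq_card (s := X ∪ Y) (t := univ) (subset_univ _)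
            have h2 := card_sdiff_add_card_eq_card (s := X ∩ Y) (t := X ∪ Y) (inter_subset_union)
            rw [card_univ] at h1
            have h3 : ((univ \ (X ∪ Y)).card : ℝ) + (((X ∪ Y) \ (X ∩ Y)).card + (X ∩ Y).card) = n := by
              rw [← hnc]
              exact_mod_cast (by omega)
            rw [hρn, hαn] at h3
            linarith
          · intro v hv
            rw [mem_sdiff] at hv
            have : v ∉ X ∩ Y := fun h => hv.2 (inter_subset_union h)
            simp only [hw, hv.2, this, if_false]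
        rw [e1, e2, e3, hsum1, hsum2]; ring
      rw [hsum3] at hnb
      have := mul_lt_mul_of_pos_right cC hn
      nlinarith
    · by_cases c2 : u ∈ X ∪ Y
      · have hwu : w u = wh := by simp only [hw, c1, c2, if_false, if_true]
        rw [hwu]
        have hsub : ∀ v, F.Adj u v → v ∈ X ∪ Y := by
          intro v hv
          have hvK := hK u v hv huK
          have h1 := hXY u v hv huK
          have h2 := hXY v u hv.symm hvK
          rw [mem_union] at c2 ⊢
          rw [mem_inter] at c1
          tauto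
        have hnb : nb F w u ≤ ∑ v ∈ X ∪ Y, w v := by
          unfold nb
          rw [← sum_filter]
          apply sum_le_sum_of_subset_of_nonneg
          · intro v hv
            rw [mem_filter] at hv
            exact hsub v hv.2
          · intro v _ _; exact hwpos v
        have e2 : ∑ v ∈ X ∪ Y, w v = ∑ v ∈ (X ∪ Y) \ (X ∩ Y), w v + ∑ v ∈ X ∩ Y, w v := by
          rw [sum_sdiff inter_subset_union]
        rw [e2, hsum1, hsum2] at hnb
        have := mul_lt_mul_of_pos_right cB hn
        nlinarith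
      · have hwu : w u = w0 := by simp only [hw, c1, c2, if_false]
        rw [hwu]
        have hsub : ∀ v, F.Adj u v → v ∈ X ∩ Y := by
          intro v hv
          have hvK := hK u v hv huK
          have h1 := hXY u v hv huK
          have h2 := hXY v u hv.symm hvK
          rw [mem_union] at c2
          rw [mem_inter]
          tauto
        have hnb : nb F w u ≤ ∑ v ∈ X ∩ Y, w v := by
          unfold nb
          rw [← sum_filter]
          apply sum_le_sum_of_subset_of_nonneg
          · intro v hv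
            rw [mem_filter] at hv
            exact hsub v hv.2
          · intro v _ _; exact hwpos v
        rw [hsum1] at hnb
        have := mul_lt_mul_of_pos_right cA hn
        nlinarith

end Pool.Agent.Helper91.NC
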