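import Mathlib

set_option autoImplicit false
set_option linter.unusedSectionVars false
set_option maxHeartbeats 1000000

namespace Pool.Agent.Helper91.NC

open Finset SimpleGraph

variable {ι : Type} [DecidableEq ι] {R : SimpleGraph ι}

/-- number of visits of `x` (the first vertex is not counted) -/
def cnt {a b : ι} (w : R.Walk a b) (x : ι) : ℕ := w.support.tail.count x

theorem cnt_le_length {a b : ι} (w : R.Walk a b) (x : ι) : cnt w x ≤ w.length := by
  unfold cnt
  refine (List.count_le_length).trans ?_
  simp

theorem cnt_append {a b c : ι} (p : R.Walk a b) (q : R.Walk b c) (x : ι) :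
    cnt (p.append q) x = cnt p x + cnt q x := by
  unfold cnt
  rw [Walk.tail_support_append, List.count_append]

/-- going `p` times back and forth along an edge -/
def bf {i j : ι} (h : R.Adj i j) : ℕ → R.Walk i i
  | 0 => Walk.nil
  | p + 1 => Walk.cons h (Walk.cons h.symm (bf h p))

theorem bf_length {i j : ι} (h : R.Adj i j) (p : ℕ) : (bf h p).length = 2 * p := by
  induction p with
  | zero => simp [bf]
  | succ p ih => simp only [bf, Walk.length_cons, ih]; ring

theorem bf_cnt {i j : ι} (h : R.Adj i j) (p : ℕ) (x : ι) :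
    cnt (bf h p) x = (if x = i then p else 0) + (if x = j then p else 0) := by
  induction p with
  | zero => simp [bf, cnt]
  | succ p ih =>
    have h1 : cnt (bf h (p + 1)) x = (if x = j then 1 else 0) + ((if x = i then 1 else 0) + cnt (bf h p) x) := by
      unfold cnt
      simp only [bf, Walk.support_cons, List.tail_cons]
      rw [← Walk.cons_tail_support (bf h p), List.count_cons, List.count_cons, List.tail_cons]
      by_cases c1 : x = j
      · by_cases c2 : x = i
        · subst c1; subst c2; simp; ring
        · subst c1; simp [c2, Ne.symm c2]; ring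
      · by_cases c2 : x = i
        · subst c2; simp [c1, Ne.symm c1]; ring
        · simp [c1, c2, Ne.symm c1, Ne.symm c2]
    rw [h1, ih]
    split_ifs <;> ring

theorem getVert_count {a b : ι} (w : R.Walk a b) (x : ι) :
    ((range (w.length + 1)).filter fun j => w.getVert j = x).card = w.support.count x := by
  induction w with
  | @nil u =>
    rw [card_filter, Walk.length_nil, Walk.support_nil, zero_add, sum_range_one, Walk.getVert_zero,
      List.count_cons, List.count_nil]
    simp
  | @cons u v w' h p ih =>
    rw [card_filter, Walk.length_cons, sum_range_succ']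
    rw [card_filter] at ih
    have e1 : ∀ k, (if (Walk.cons h p).getVert (k + 1) = x then (1 : ℕ) else 0) = if p.getVert k = x then 1 else 0 := by
      intro k
      rw [Walk.getVert_cons_succ]
    rw [sum_congr rfl (fun k _ => e1 k), ih, Walk.getVert_zero, Walk.support_cons, List.count_cons]
    simp

theorem getVert_cnt {a b : ι} (w : R.Walk a b) (x : ι) :
    ((range w.length).filter fun j => w.getVert (j + 1) = x).card = cnt w x := by
  cases w with
  | nil => first | (simp [cnt]; done) | (simp [cnt]; rfl)
  | cons h p =>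
    unfold cnt
    simp only [Walk.length_cons, Walk.support_cons, List.tail_cons]
    rw [← getVert_count p x, card_filter, card_filter]
    refine sum_congr rfl fun k _ => ?_
    rw [Walk.getVert_cons_succ]

/-- a closed walk as a function -/
theorem walk_fun {r : ι} (w : R.Walk r r) (hl : 3 ≤ w.length) : ∃ c : ℕ → ι,
    (∀ j, j + 1 < w.length → R.Adj (c j) (c (j + 1))) ∧ R.Adj (c (w.length - 1)) (c 0) ∧
    ∀ x, ((range w.length).filter fun j => c j = x).card = cnt w x := by
  refine ⟨fun j => w.getVert (j + 1), ?_, ?_, fun x => getVert_cnt w x⟩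
  · intro j hj
    exact w.adj_getVert_succ hj
  · simp only
    rw [show w.length - 1 + 1 = w.length by omega, Walk.getVert_length]
    have := w.adj_getVert_succ (show 0 < w.length by omega)
    rw [Walk.getVert_zero] at this
    exact this

theorem short_path [Fintype ι] {r i : ι} (h : R.Reachable r i) :
    ∃ p : R.Walk r i, p.length ≤ Fintype.card ι := by
  obtain ⟨p, hp⟩ := h.exists_isPath
  exact ⟨p, hp.length_lt.le⟩

theorem w1 [Fintype ι] (r : ι) (M : Finset (ι × ι)) :
    (∀ p ∈ M, R.Adj p.1 p.2 ∧ R.Reachable r p.1) →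
    ∃ D : ℕ, D ≤ 2 * Fintype.card ι * M.card ∧ Even D ∧ ∀ pm P : ℕ, P ≤ M.card * pm →
      ∃ w : R.Walk r r, w.length = D + 2 * P ∧ ∀ x, cnt w x ≤ 2 * Fintype.card ι * M.card +
        ∑ p ∈ M, ((if x = p.1 then pm else 0) + (if x = p.2 then pm else 0)) := by
  induction M using Finset.induction_on with
  | empty =>
    intro _
    refine ⟨0, by simp, by simp, ?_⟩
    intro pm P hP
    have : P = 0 := by simpa using hP
    subst this
    exact ⟨Walk.nil, by simp, by intro x; simp [cnt]⟩
  | insert a M ha ih =>
    intro hM
    obtain ⟨D, hD, hDe, hall⟩ := ih (fun p hp => hM p (mem_insert_of_mem hp))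
    obtain ⟨hadj, hreach⟩ := hM a (mem_insert_self _ _)
    obtain ⟨q, hq⟩ := short_path hreach
    refine ⟨D + 2 * q.length, ?_, ?_, ?_⟩
    · rw [card_insert_of_notMem ha]
      have : 2 * Fintype.card ι * (M.card + 1) = 2 * Fintype.card ι * M.card + 2 * Fintype.card ι := by ring
      omega
    · exact hDe.add (even_two_mul _)
    · intro pm P hP
      rw [card_insert_of_notMem ha] at hP
      have hP' : P ≤ M.card * pm + pm := by
        have : (M.card + 1) * pm = M.card * pm + pm := by ring
        omega
      obtain ⟨w, hw, hwc⟩ := hall pm (P - min P pm) (by omega)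
      refine ⟨(q.append ((bf hadj (min P pm)).append q.reverse)).append w, ?_, ?_⟩
      · simp only [Walk.length_append, bf_length, Walk.length_reverse, hw]
        have : min P pm ≤ P := min_le_left _ _
        omega
      · intro x
        rw [cnt_append, cnt_append, cnt_append, bf_cnt, sum_insert ha, card_insert_of_notMem ha]
        have h1 := cnt_le_length q x
        have h2 := cnt_le_length q.reverse x
        rw [Walk.length_reverse] at h2
        have h3 := hwc x
        have h4 : min P pm ≤ pm := min_le_right _ _
        have h5 : 2 * Fintype.card ι * (M.card + 1) = 2 * Fintype.card ι * M.card + 2 * Fintype.card ι := by ring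
        rw [h5]
        have h6 : (if x = a.1 then min P pm else 0) ≤ (if x = a.1 then pm else 0) := by split_ifs <;> omega
        have h7 : (if x = a.2 then min P pm else 0) ≤ (if x = a.2 then pm else 0) := by split_ifs <;> omega
        omega

/-- closed walks of all lengths -/
theorem closed_walks [Fintype ι] (r : ι) (M : Finset (ι × ι)) (hM0 : M.Nonempty)
    (hM : ∀ p ∈ M, R.Adj p.1 p.2 ∧ R.Reachable r p.1)
    (hinj1 : ∀ p ∈ M, ∀ q ∈ M, p.1 = q.1 → p = q) (hinj2 : ∀ p ∈ M, ∀ q ∈ M, p.2 = q.2 → p = q)
    (pm B : ℕ) (hB : 2 * pm + 2 * Fintype.card ι ^ 2 + 2 * Fintype.card ι + 10 ≤ B)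
    (l : ℕ) (hl3 : 3 ≤ l) (hl : l ≤ 2 * M.card * pm)
    (htri : Even l ∨ ∃ a b c : ι, R.Reachable r a ∧ R.Adj a b ∧ R.Adj b c ∧ R.Adj c a) :
    ∃ (s : ι) (w : R.Walk s s), w.length = l ∧ ∀ x, cnt w x ≤ B := by
  have hMt0 : M.card ≤ Fintype.card ι := by
    rw [← Finset.card_univ]
    apply Finset.card_le_card_of_injOn Prod.fst
    · intro p _; simp
    · intro p hp q hq h; exact hinj1 p hp q hq h
  obtain ⟨D, hD, hDe, hall'⟩ := w1 r M hM
  have hall := hall' pm
  have hshort := fun (i : ι) (h : R.Reachable r i) => short_path h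
  obtain ⟨t, ht⟩ : ∃ t, Fintype.card ι = t := ⟨_, rfl⟩
  rw [ht] at hMt0 hD hB
  rw [ht] at hshort
  rw [ht] at hall
  have hMt := hMt0
  obtain ⟨mp, hmp⟩ : ∃ mp, mp = M.card * pm := ⟨_, rfl⟩
  obtain ⟨tm, htm⟩ : ∃ tm, tm = 2 * t * M.card := ⟨_, rfl⟩
  have hl' : l ≤ 2 * mp := by rw [hmp, ← mul_assoc]; exact hl
  rw [← htm] at hD
  rw [← htm, ← hmp] at hall
  have hsum : ∀ x, ∑ p ∈ M, ((if x = p.1 then pm else 0) + (if x = p.2 then pm else 0)) ≤ 2 * pm := by
    intro x
    rw [sum_add_distrib]
    have a1 : ∑ p ∈ M, (if x = p.1 then pm else 0) ≤ pm := by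
      rw [← sum_filter, sum_const, smul_eq_mul]
      have : (M.filter fun p => x = p.1).card ≤ 1 := by
        rw [card_le_one]
        intro p hp q hq
        rw [mem_filter] at hp hq
        exact hinj1 p hp.1 q hq.1 (hp.2.symm.trans hq.2)
      calc _ ≤ 1 * pm := Nat.mul_le_mul_right _ this
        _ = pm := one_mul _
    have a2 : ∑ p ∈ M, (if x = p.2 then pm else 0) ≤ pm := by
      rw [← sum_filter, sum_const, smul_eq_mul]
      have : (M.filter fun p => x = p.2).card ≤ 1 := by
        rw [card_le_one]
        intro p hp q hq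
        rw [mem_filter] at hp hq
        exact hinj2 p hp.1 q hq.1 (hp.2.symm.trans hq.2)
      calc _ ≤ 1 * pm := Nat.mul_le_mul_right _ this
        _ = pm := one_mul _
    omega
  have hDt : tm ≤ 2 * t ^ 2 := by
    rw [htm]
    calc 2 * t * M.card ≤ 2 * t * t := Nat.mul_le_mul_left _ hMt
      _ = 2 * t ^ 2 := by ring
  rcases Nat.even_or_odd l with hev | hodd
  · obtain ⟨p, hp⟩ := hev
    by_cases hlong : tm ≤ l
    · obtain ⟨D', hD'⟩ := hDe
      obtain ⟨w, hw, hwc⟩ := hall (p - D') (by omega)
      refine ⟨r, w, by omega, ?_⟩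
      intro x
      have := hwc x
      have := hsum x
      omega
    · obtain ⟨a, ha⟩ := hM0
      refine ⟨a.1, bf (hM a ha).1 p, by rw [bf_length]; omega, ?_⟩
      intro x
      have := cnt_le_length (bf (hM a ha).1 p) x
      rw [bf_length] at this
      omega
  · rcases htri with hev | ⟨a, b, c, hra, hab, hbc, hca⟩
    · exact absurd hev (Nat.not_even_iff_odd.mpr hodd)
    obtain ⟨p, hp⟩ := hodd
    by_cases hlong : tm + 2 * t + 3 ≤ l
    · obtain ⟨D', hD'⟩ := hDe
      obtain ⟨q, hq⟩ := hshort a hra
      obtain ⟨w, hw, hwc⟩ := hall (p - 1 - D' - q.length) (by omega)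
      refine ⟨r, (q.append ((Walk.cons hab (Walk.cons hbc (Walk.cons hca Walk.nil))).append q.reverse)).append w,
        ?_, ?_⟩
      · simp only [Walk.length_append, Walk.length_cons, Walk.length_nil, Walk.length_reverse, hw]
        omega
      · intro x
        rw [cnt_append]
        have h1 := cnt_le_length (q.append ((Walk.cons hab (Walk.cons hbc (Walk.cons hca Walk.nil))).append q.reverse)) x
        simp only [Walk.length_append, Walk.length_cons, Walk.length_nil, Walk.length_reverse] at h1
        have h2 := hwc x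
        have h3 := hsum x
        omega
    · refine ⟨a, (Walk.cons hab (Walk.cons hbc (Walk.cons hca Walk.nil))).append (bf hab (p - 1)), ?_, ?_⟩
      · simp only [Walk.length_append, Walk.length_cons, Walk.length_nil, bf_length]
        omega
      · intro x
        have h1 := cnt_le_length ((Walk.cons hab (Walk.cons hbc (Walk.cons hca Walk.nil))).append (bf hab (p - 1))) x
        simp only [Walk.length_append, Walk.length_cons, Walk.length_nil, bf_length] at h1
        omega

end Pool.Agent.Helper91.NC
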