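import Pool.Agent.Helper91.NC.RL
import Pool.Agent.Helper91.NC.W
import Pool.Agent.Helper91.NC.H
import Pool.Agent.Helper91.NC.S

set_option autoImplicit false
set_option linter.unusedSectionVars false
set_option maxHeartbeats 1000000

namespace Pool.Agent.Helper91.NC

open Finset SimpleGraph Pool.Agent.Helper91.EC

/-- a connected matching certificate gives the cycle -/
theorem cyc_of_matching {V : Type} [Fintype V] [DecidableEq V] (G : SimpleGraph V) [DecidableRel G.Adj]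
    {ι : Type} [Fintype ι] [DecidableEq ι] (η : ℝ) (cl : V → ι) (R : SimpleGraph ι) (m : ℕ)
    (hred : Red G η cl R m) (hη0 : 0 < η) (hη1 : η ≤ 1 / 4) (T : ℕ) (hT : Fintype.card ι ≤ T)
    (hm : (2 * (T : ℝ) ^ 2 + 2 * T + 13) / η ≤ m)
    (r : ι) (M : Finset (ι × ι))
    (hM : ∀ p ∈ M, R.Adj p.1 p.2 ∧ R.Reachable r p.1)
    (hinj1 : ∀ p ∈ M, ∀ q ∈ M, p.1 = q.1 → p = q) (hinj2 : ∀ p ∈ M, ∀ q ∈ M, p.2 = q.2 → p = q)
    (l : ℕ) (hl3 : 3 ≤ l) (hl : (l : ℝ) ≤ M.card * ((1 - 2 * η) * (m + 1)))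
    (htri : Even l ∨ ∃ a b c : ι, R.Reachable r a ∧ R.Adj a b ∧ R.Adj b c ∧ R.Adj c a) :
    (cycleGraph l) ⊑ G := by
  have hM0 : M.Nonempty := by
    rw [nonempty_iff_ne_empty]
    rintro rfl
    simp at hl
    omega
  set t := Fintype.card ι with ht
  have htT : (t : ℝ) ≤ T := by exact_mod_cast hT
  have hm' : 2 * (T : ℝ) ^ 2 + 2 * T + 13 ≤ η * m := by
    rw [div_le_iff₀ hη0] at hm; linarith
  set B : ℕ := ⌊(1 - η) * (m : ℝ)⌋₊ with hB
  have hB1 : (B : ℝ) ≤ (1 - η) * m := Nat.floor_le (mul_nonneg (by linarith) (by positivity))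
  have hB2 : (1 - η) * (m : ℝ) < B + 1 := Nat.lt_floor_add_one _
  have htT2 : (t : ℝ) ^ 2 ≤ (T : ℝ) ^ 2 := pow_le_pow_left₀ (by positivity) htT 2
  have hm0 : (0 : ℝ) ≤ m := by positivity
  have hBbig : 2 * t ^ 2 + 2 * t + 10 ≤ B := by
    have : (2 * (t : ℝ) ^ 2 + 2 * t + 10) ≤ B := by nlinarith
    exact_mod_cast this
  obtain ⟨q, hq⟩ : ∃ q, B = 2 * t ^ 2 + 2 * t + 10 + q := ⟨B - (2 * t ^ 2 + 2 * t + 10), by omega⟩
  set pm := q / 2 with hpm
  have hpm1 : 2 * pm ≤ q := by omega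
  have hpm2 : q ≤ 2 * pm + 1 := by omega
  have hpmr : (1 - 2 * η) * ((m : ℝ) + 1) ≤ 2 * pm := by
    have h1 : (q : ℝ) ≤ 2 * pm + 1 := by exact_mod_cast hpm2
    have h2 : (B : ℝ) = 2 * t ^ 2 + 2 * t + 10 + q := by exact_mod_cast hq
    nlinarith
  have hl2 : l ≤ 2 * M.card * pm := by
    have : (l : ℝ) ≤ 2 * M.card * pm := by
      refine hl.trans ?_
      calc (M.card : ℝ) * ((1 - 2 * η) * (m + 1)) ≤ M.card * (2 * pm) :=
            mul_le_mul_of_nonneg_left hpmr (by positivity)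
        _ = _ := by ring
    exact_mod_cast this
  obtain ⟨s, w, hw, hcnt⟩ := closed_walks r M hM0 hM hinj1 hinj2 pm B (by rw [← ht]; omega) l hl3 hl2 htri
  obtain ⟨c, hc1, hc2, hc3⟩ := walk_fun w (by omega)
  rw [hw] at hc1 hc2 hc3
  apply hred.emb l hl3 c hc1 hc2
  intro i
  refine le_trans ?_ hB1
  have := hcnt i
  rw [← hc3 i] at this
  refine le_trans (le_of_eq ?_) (Nat.cast_le.mpr this)
  congr 1

theorem step1 (c : ℝ) (hc : c ^ 2 - 3 * c + 1 = 0) (hc1 : c ≤ 0.382) (hc0 : 0.38 ≤ c)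
    (ε e : ℝ) (hε : 0 < ε) (hεc : ε < c) (he : 0 < e) (he1 : 6 * e ≤ ε) (he2 : e ≤ 1 / 100) :
    ∃ n1 : ℕ, ∀ n : ℕ, n1 ≤ n → ∀ G : SimpleGraph (Fin n), ∀ x : Fin n → ℝ, (∀ v, 0 ≤ x v) → x ≠ 0 →
      ∀ l : ℝ, ((n : ℝ) - 1) / 2 ≤ l → l * S2 x ≤ Q G x →
      ∀ ℓ : ℕ, 3 ≤ ℓ → (ℓ : ℝ) ≤ (c - ε) * n → ¬ (cycleGraph ℓ) ⊑ G →
        Odd ℓ ∧ ∃ F : SimpleGraph (Fin n), F ≤ G ∧ (∀ u v w, F.Adj u v → F.Adj v w → F.Adj w u → False) ∧
          ∃ y : Fin n → ℝ, y ≠ 0 ∧ ((1 / 2 - e) * n) * S2 y ≤ Q F y := by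
  classical
  set δ : ℝ := ε / 2 with hδ
  set η : ℝ := (e / 2) ^ 2 with hη
  have hη0 : 0 < η := by positivity
  have hη1 : η ≤ 1 / 4 := by rw [hη]; nlinarith
  obtain ⟨T, M1, hT0, hreg⟩ := reg η hη0 (by linarith)
  obtain ⟨M0, hM0⟩ : ∃ M0 : ℕ, M0 = max M1 ⌈(2 * (T : ℝ) ^ 2 + 2 * T + 13) / η⌉₊ := ⟨_, rfl⟩
  refine ⟨max (T * (M0 + 1)) ⌈1 / e⌉₊, ?_⟩
  intro n hn G x hx0 hxne l hl hQ ℓ hℓ3 hℓ hno
  have hnT : T * (M0 + 1) ≤ n := (le_max_left _ _).trans hn
  have hne : 1 / e ≤ (n : ℝ) := by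
    refine (Nat.le_ceil _).trans ?_
    exact_mod_cast (le_max_right _ _).trans hn
  have hnpos : (0 : ℝ) < n := lt_of_lt_of_le (by positivity) hne
  have hne' : 1 ≤ e * n := by
    rw [div_le_iff₀ he] at hne; linarith
  obtain ⟨ι, _, _, cl, R, m, hιT, hι0, hmM, hred⟩ := hreg M0 (by rw [hM0]; exact le_max_left _ _) (Fin n)
    inferInstance inferInstance G (Classical.decRel _) (by rw [Fintype.card_fin]; exact hnT)
  have hmbig : (2 * (T : ℝ) ^ 2 + 2 * T + 13) / η ≤ m := by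
    refine (Nat.le_ceil _).trans ?_
    have : ⌈(2 * (T : ℝ) ^ 2 + 2 * T + 13) / η⌉₊ ≤ m := le_trans (by rw [hM0]; exact le_max_right _ _) hmM
    exact_mod_cast this
  -- the graph of regular edges
  let F0 : SimpleGraph (Fin n) :=
    { Adj := fun u v => G.Adj u v ∧ R.Adj (cl u) (cl v)
      symm := ⟨fun _ _ h => ⟨h.1.symm, h.2.symm⟩⟩
      loopless := ⟨fun _ h => h.1.ne rfl⟩ }
  have hF0G : F0 ≤ G := fun _ _ h => h.1
  have hQF0 : ((1 / 2 - e) * n) * S2 x ≤ Q F0 x := by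
    have h1 := few_edges G F0 hF0G x hx0 (e / 2) n (by positivity) hnpos.le (by
      have h2 := hred.few
      rw [Fintype.card_fin] at h2
      refine le_trans (le_of_eq ?_) h2
      congr 2
      ext p
      simp only [mem_filter, mem_univ, true_and, F0]
      tauto)
    have hS := S2_nonneg x
    have h3 : ((1 / 2 - e) * n) ≤ l - e / 2 * n := by linarith
    nlinarith
  let κ : Fin n → R.ConnectedComponent := fun v => R.connectedComponentMk (cl v)
  have hκ : ∀ u v, F0.Adj u v → κ u = κ v := by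
    intro u v h
    exact ConnectedComponent.eq.mpr h.2.reachable
  obtain ⟨comp0, hyne, hyQ⟩ := @comp (Fin n) _ R.ConnectedComponent (Fintype.ofFinite _) (Classical.decEq _) F0 κ hκ x hxne _ hQF0
  obtain ⟨r, hr⟩ := comp0.exists_rep
  set y : Fin n → ℝ := fun v => if κ v = comp0 then x v else 0 with hy
  have hysupp : ∀ v, y v ≠ 0 → κ v = comp0 := by
    intro v hv
    by_contra h
    exact hv (by simp only [hy]; rw [if_neg h])
  have hr' : ∀ i : ι, R.connectedComponentMk i = comp0 → R.Reachable r i := by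
    intro i hi
    rw [← hr] at hi
    exact (ConnectedComponent.eq.mp hi).symm
  let K : Finset ι := univ.filter fun i => R.connectedComponentMk i = comp0
  set τ : ℕ := ⌈(c - δ) * n / (m + 1)⌉₊ with hτ
  have hm1 : (0 : ℝ) < (m : ℝ) + 1 := by positivity
  rcases hall R K τ with ⟨M, hMc, hM, hi1, hi2⟩ | ⟨S, hSK, hScard⟩
  · -- matching case
    have hMr : ∀ p ∈ M, R.Adj p.1 p.2 ∧ R.Reachable r p.1 := by
      intro p hp
      obtain ⟨h1, h2⟩ := hM p hp
      simp only [K, mem_filter, mem_univ, true_and] at h1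
      exact ⟨h2, hr' _ h1⟩
    have hlM : (ℓ : ℝ) ≤ M.card * ((1 - 2 * η) * (m + 1)) := by
      have h1 : (c - δ) * n / (m + 1) ≤ (M.card : ℝ) := by
        exact (Nat.le_ceil _).trans (Nat.cast_le.mpr hMc)
      rw [div_le_iff₀ hm1] at h1
      have h2 : (c - ε) * n ≤ (1 - 2 * η) * ((c - δ) * n) := by
        have h3 : c - ε ≤ (1 - 2 * η) * (c - δ) := by
          have : η ≤ e / 100 := by rw [hη]; nlinarith
          rw [hδ] at *
          nlinarith
        calc (c - ε) * n ≤ ((1 - 2 * η) * (c - δ)) * n := mul_le_mul_of_nonneg_right h3 hnpos.le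
          _ = _ := by ring
      have h4 : (1 - 2 * η) * ((c - δ) * n) ≤ (1 - 2 * η) * (M.card * (m + 1)) :=
        mul_le_mul_of_nonneg_left h1 (by linarith)
      linarith
    have hcyc := fun htri => @cyc_of_matching (Fin n) _ _ G (Classical.decRel _) ι _ _ η cl R m hred hη0 hη1 T hιT
      hmbig r M hMr hi1 hi2 ℓ hℓ3 hlM htri
    rcases Nat.even_or_odd ℓ with hev | hodd
    · exact absurd (hcyc (Or.inl hev)) hno
    · refine ⟨hodd, ?_⟩
      have hnotri : ¬ ∃ a b c : ι, R.Reachable r a ∧ R.Adj a b ∧ R.Adj b c ∧ R.Adj c a :=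
        fun h => hno (hcyc (Or.inr h))
      let F : SimpleGraph (Fin n) :=
        { Adj := fun u v => G.Adj u v ∧ R.Adj (cl u) (cl v) ∧ κ u = comp0
          symm := ⟨fun u v h => ⟨h.1.symm, h.2.1.symm, by rw [← hκ u v ⟨h.1, h.2.1⟩]; exact h.2.2⟩⟩
          loopless := ⟨fun _ h => h.1.ne rfl⟩ }
      refine ⟨F, fun _ _ h => h.1, ?_, y, hyne, ?_⟩
      · rintro u v w ⟨-, h1, h2⟩ ⟨-, h3, -⟩ ⟨-, h4, -⟩
        exact hnotri ⟨cl u, cl v, cl w, hr' _ h2, h1, h3, h4⟩
      · refine hyQ.trans (le_of_eq ?_)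
        unfold Q
        refine sum_congr rfl fun u _ => ?_
        by_cases c1 : y u = 0
        · rw [c1]; simp
        · congr 1
          unfold nb
          refine sum_congr rfl fun v _ => ?_
          have : F0.Adj u v ↔ F.Adj u v := by
            constructor
            · intro h; exact ⟨h.1, h.2, hysupp u c1⟩
            · intro h; exact ⟨h.1, h.2.1⟩
          by_cases c2 : F0.Adj u v
          · rw [if_pos c2, if_pos (this.mp c2)]
          · rw [if_neg c2, if_neg (fun h => c2 (this.mpr h))]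
  · -- cover case
    exfalso
    set X : Finset (Fin n) := univ.filter fun v => cl v ∈ K \ S with hX
    set Y : Finset (Fin n) := univ.filter fun v => cl v ∈ univ.filter fun j => ∃ i ∈ S, R.Adj i j with hY
    set KV : Finset (Fin n) := univ.filter fun v => κ v = comp0 with hKV
    have hcardF : ∀ A : Finset ι, ((univ.filter fun v : Fin n => cl v ∈ A).card : ℝ) ≤ A.card * (m + 1) := by
      intro A
      have h1 : (univ.filter fun v : Fin n => cl v ∈ A) = A.biUnion fun i => Cl cl i := by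
        ext v
        simp [mem_Cl]
      rw [h1]
      have h2 : (A.biUnion fun i => Cl cl i).card ≤ ∑ i ∈ A, (Cl cl i).card := card_biUnion_le
      have h3 : ∑ i ∈ A, (Cl cl i).card ≤ ∑ i ∈ A, (m + 1) := sum_le_sum fun i _ => (hred.sz i).2
      rw [sum_const, smul_eq_mul] at h3
      exact_mod_cast h2.trans h3
    have hcard : (X.card : ℝ) + Y.card ≤ (c - δ) * n := by
      have h1 := hcardF (K \ S)
      have h2 := hcardF (univ.filter fun j => ∃ i ∈ S, R.Adj i j)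
      have h3 := Nat.lt_ceil.mp hScard
      push_cast at h3
      rw [lt_div_iff₀ hm1] at h3
      rw [← hX] at h1
      rw [← hY] at h2
      linarith
    have hlt := cover_cert F0 KV X Y y hyne ?_ ?_ ?_ c δ e n hnpos (by rw [Fintype.card_fin]) hc hc1 hc0
      (by positivity) he (by linarith) he2 hcard
    · linarith
    · intro v hv
      rw [hKV, mem_filter]
      exact ⟨mem_univ _, hysupp v hv⟩
    · intro u v huv hu
      rw [hKV, mem_filter] at hu ⊢
      exact ⟨mem_univ _, by rw [← hκ u v huv]; exact hu.2⟩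
    · intro u v huv hu
      by_cases c1 : cl u ∈ S
      · right
        rw [hY, mem_filter, mem_filter]
        exact ⟨mem_univ _, mem_univ _, cl u, c1, huv.2⟩
      · left
        rw [hX, mem_filter, mem_sdiff]
        refine ⟨mem_univ _, ?_, c1⟩
        simp only [K, mem_filter, mem_univ, true_and]
        rw [hKV, mem_filter] at hu
        exact hu.2

end Pool.Agent.Helper91.NC
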