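import Pool.Agent.Helper91.NC.Embed

set_option autoImplicit false
set_option linter.unusedSectionVars false
set_option maxHeartbeats 1000000

namespace Pool.Agent.Helper91.NC

open Finset SimpleGraph Pool.Agent.Helper91.EC SzemerediRegularity

variable {V : Type} [Fintype V] [DecidableEq V] (G : SimpleGraph V) [DecidableRel G.Adj]

open Classical in
/-- the facts about the reduced graph used later on -/
structure Red {ι : Type} [Fintype ι] [DecidableEq ι] (η : ℝ) (cl : V → ι) (R : SimpleGraph ι) (m : ℕ) : Prop where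
  sz : ∀ i, m ≤ (Cl cl i).card ∧ (Cl cl i).card ≤ m + 1
  few : ((univ.filter fun p : V × V => G.Adj p.1 p.2 ∧ ¬ R.Adj (cl p.1) (cl p.2)).card : ℝ) ≤
    η * (Fintype.card V : ℝ) ^ 2
  emb : ∀ (l : ℕ), 3 ≤ l → ∀ (c : ℕ → ι), (∀ j, j + 1 < l → R.Adj (c j) (c (j + 1))) →
    R.Adj (c (l - 1)) (c 0) →
    (∀ i, (((range l).filter fun j => c j = i).card : ℝ) ≤ (1 - η) * m) → (cycleGraph l) ⊑ G

theorem reg (η : ℝ) (hη0 : 0 < η) (hη1 : η ≤ 1) : ∃ T M1 : ℕ, 0 < T ∧ ∀ (M0 : ℕ), M1 ≤ M0 →
    ∀ (V : Type) (_ : Fintype V) (_ : DecidableEq V) (G : SimpleGraph V) (_ : DecidableRel G.Adj),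
      T * (M0 + 1) ≤ Fintype.card V →
      ∃ (ι : Type) (_ : Fintype ι) (_ : DecidableEq ι) (cl : V → ι) (R : SimpleGraph ι) (m : ℕ),
        Fintype.card ι ≤ T ∧ 0 < Fintype.card ι ∧ M0 ≤ m ∧ Red G η cl R m := by
  classical
  set d : ℝ := η / 32 with hd
  set e : ℝ := d ^ 2 / 32 with he
  have hd0 : 0 < d := by positivity
  have he0 : 0 < e := by positivity
  have hd1 : d ≤ 1 / 32 := by rw [hd]; linarith
  have he1 : e ≤ d / 32 := by rw [he]; nlinarith
  set l0 : ℕ := ⌈4 / (η / 2)⌉₊ with hl0
  refine ⟨max (bound e l0) l0, ⌈8 / d⌉₊, lt_of_lt_of_le (bound_pos _ _) (le_max_left _ _), ?_⟩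
  intro M0 hM0 V _ _ G _ hn
  have hl0n : l0 ≤ Fintype.card V := by
    refine le_trans (le_max_right (bound e l0) l0) (le_trans ?_ hn)
    exact Nat.le_mul_of_pos_right _ (by omega)
  obtain ⟨P, hP1, hP2, hP3, hP4⟩ := szemeredi_regularity G he0 hl0n
  have hT0 : 0 < max (bound e l0) l0 := lt_of_lt_of_le (bound_pos _ _) (le_max_left _ _)
  have hcard : 0 < Fintype.card V := lt_of_lt_of_le (by positivity) hn
  have : Nonempty V := Fintype.card_pos_iff.mp hcard
  have hparts : 0 < P.parts.card := by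
    rw [card_pos]
    exact P.parts_nonempty (univ_nonempty.ne_empty)
  let ι : Type := {s // s ∈ P.parts}
  let cl : V → ι := fun v => ⟨P.part v, P.part_mem.2 (mem_univ v)⟩
  let R : SimpleGraph ι :=
    { Adj := fun i j => i ≠ j ∧ G.IsUniform e i.1 j.1 ∧ d ≤ (G.edgeDensity i.1 j.1 : ℝ)
      symm := ⟨fun i j h => ⟨h.1.symm, h.2.1.symm, by rw [SimpleGraph.edgeDensity_comm]; exact h.2.2⟩⟩
      loopless := ⟨fun i h => h.1 rfl⟩ }
  set m : ℕ := Fintype.card V / P.parts.card with hm
  have hCl : ∀ i : ι, Cl cl i = i.1 := by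
    intro i
    ext v
    rw [mem_Cl]
    constructor
    · intro h
      have h1 : P.part v = i.1 := congrArg Subtype.val h
      rw [← h1]
      exact P.mem_part_self.2 (mem_univ v)
    · intro h
      exact Subtype.ext (P.part_eq_of_mem i.2 h)
  have hmM : M0 ≤ m := by
    rw [hm, Nat.le_div_iff_mul_le hparts]
    calc M0 * P.parts.card ≤ M0 * max (bound e l0) l0 := Nat.mul_le_mul_left _ (hP3.trans (le_max_left _ _))
      _ ≤ max (bound e l0) l0 * (M0 + 1) := by rw [mul_comm]; exact Nat.mul_le_mul_left _ (by omega)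
      _ ≤ _ := hn
  refine ⟨ι, inferInstance, inferInstance, cl, R, m, ?_, ?_, hmM, ?_, ?_, ?_⟩
  · have : Fintype.card ι = P.parts.card := Fintype.card_coe _
    rw [this]; exact hP3.trans (le_max_left _ _)
  · have : Fintype.card ι = P.parts.card := Fintype.card_coe _
    rw [this]; exact hparts
  · intro i
    rw [hCl]
    have h1 := hP1.average_le_card_part i.2
    have h2 := hP1.card_part_le_average_add_one i.2
    rw [card_univ] at h1 h2
    exact ⟨h1, h2⟩
  · -- few
    have hsub : (univ.filter fun p : V × V => G.Adj p.1 p.2 ∧ ¬ R.Adj (cl p.1) (cl p.2)) ⊆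
        (P.nonUniforms G e).biUnion (fun (U, V) ↦ U ×ˢ V) ∪ P.parts.biUnion offDiag ∪
        (P.sparsePairs G d).biUnion fun (U, V) ↦ G.interedges U V := by
      rintro ⟨x, y⟩ h
      rw [mem_filter] at h
      obtain ⟨-, h1, h2⟩ := h
      simp only at h1 h2
      have hx := P.mem_part_self.2 (mem_univ x)
      have hy := P.mem_part_self.2 (mem_univ y)
      have hX := P.part_mem.2 (mem_univ x)
      have hY := P.part_mem.2 (mem_univ y)
      by_cases hxy : P.part x = P.part y
      · rw [mem_union, mem_union]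
        left; right
        rw [mem_biUnion]
        refine ⟨P.part x, hX, ?_⟩
        rw [mem_offDiag]
        exact ⟨hx, hxy ▸ hy, h1.ne⟩
      · by_cases hu : G.IsUniform e (P.part x) (P.part y)
        · rw [mem_union]
          right
          rw [mem_biUnion]
          refine ⟨(P.part x, P.part y), ?_, ?_⟩
          · rw [Finpartition.mk_mem_sparsePairs]
            refine ⟨hX, hY, hxy, ?_⟩
            by_contra hc
            push Not at hc
            exact h2 ⟨fun e' => hxy (congrArg Subtype.val e'), hu, hc⟩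
          · rw [mem_interedges_iff]
            exact ⟨hx, hy, h1⟩
        · rw [mem_union, mem_union]
          left; left
          rw [mem_biUnion]
          refine ⟨(P.part x, P.part y), ?_, ?_⟩
          · rw [Finpartition.mk_mem_nonUniforms]
            exact ⟨hX, hY, hxy, hu⟩
          · rw [mem_product]; exact ⟨hx, hy⟩
    have b1 := hP1.sum_nonUniforms_lt univ_nonempty he0 hP4
    have b2 := hP1.card_biUnion_offDiag_le (ε := η / 2) (by positivity) (by
      refine le_trans (Nat.le_ceil _) ?_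
      exact_mod_cast hP2)
    have b3 := hP1.card_interedges_sparsePairs_le (G := G) (ε := d) hd0.le
    rw [card_univ] at b1 b2 b3
    have b4 := card_le_card hsub
    have b5 := card_union_le ((P.nonUniforms G e).biUnion (fun (U, V) ↦ U ×ˢ V) ∪ P.parts.biUnion offDiag)
        ((P.sparsePairs G d).biUnion fun (U, V) ↦ G.interedges U V)
    have b6 := card_union_le ((P.nonUniforms G e).biUnion (fun (U, V) ↦ U ×ˢ V)) (P.parts.biUnion offDiag)
    have b7 : ((univ.filter fun p : V × V => G.Adj p.1 p.2 ∧ ¬ R.Adj (cl p.1) (cl p.2)).card : ℝ) ≤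
        (((P.nonUniforms G e).biUnion (fun (U, V) ↦ U ×ˢ V)).card : ℝ) + (P.parts.biUnion offDiag).card +
        ((P.sparsePairs G d).biUnion fun (U, V) ↦ G.interedges U V).card := by
      exact_mod_cast (by omega)
    have hn0 : (0 : ℝ) ≤ (Fintype.card V : ℝ) ^ 2 := by positivity
    have b8 : (4 * e + η / 2 / 2 + 4 * d) * (Fintype.card V : ℝ) ^ 2 ≤ η * (Fintype.card V : ℝ) ^ 2 := by
      apply mul_le_mul_of_nonneg_right _ hn0
      rw [hd] at he1 ⊢
      linarith
    have b9 : ((univ.filter fun p : V × V => G.Adj p.1 p.2 ∧ ¬ R.Adj (cl p.1) (cl p.2)).card : ℝ) ≤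
        η * (Fintype.card V : ℝ) ^ 2 := by
      refine b7.trans ?_
      linarith
    convert b9
  · intro l hl c hc hcl hv
    have hsz : ∀ i, m ≤ (Cl cl i).card ∧ (Cl cl i).card ≤ m + 1 := by
      intro i
      rw [hCl]
      have h1 := hP1.average_le_card_part i.2
      have h2 := hP1.card_part_le_average_add_one i.2
      rw [card_univ] at h1 h2
      exact ⟨h1, h2⟩
    apply embed G cl R m e d η hsz ?_ hd0 (by linarith) (by rw [hd]; linarith) rfl ?_ l hl c hc hcl hv
    · intro i j hij
      rw [hCl, hCl]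
      exact hij.2
    · have h1 : 8 / d ≤ (m : ℝ) := by
        refine le_trans (Nat.le_ceil _) ?_
        exact_mod_cast hM0.trans hmM
      rw [div_le_iff₀ hd0] at h1
      linarith

end Pool.Agent.Helper91.NC
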