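import Pool.Agent.Helper91.NC.C

set_option autoImplicit false
set_option linter.unusedSectionVars false
set_option maxHeartbeats 1000000

namespace Pool.Agent.Helper91.NC

open Finset SimpleGraph Pool.Agent.Helper91.EC

variable {V : Type} [Fintype V] [DecidableEq V] (G : SimpleGraph V) [DecidableRel G.Adj]

/-- weighted degree into a set -/
def fs (x : V → ℝ) (v : V) (S : Finset V) : ℝ := ∑ w ∈ S.filter (G.Adj v), x w

theorem nb_fs (x : V → ℝ) (v : V) : nb G x v = fs G x v univ := by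
  unfold nb fs
  rw [sum_filter]
  refine sum_congr rfl fun w _ => ?_
  congr

theorem fs_le_dg (x : V → ℝ) (hx1 : ∀ v, x v ≤ 1) (v : V) (S : Finset V) : fs G x v S ≤ dg G v S := by
  unfold fs dg
  calc _ ≤ ∑ w ∈ S.filter (G.Adj v), (1 : ℝ) := sum_le_sum fun w _ => hx1 w
    _ = _ := by simp

theorem fs_le_sum (x : V → ℝ) (hx0 : ∀ v, 0 ≤ x v) (v : V) (S : Finset V) : fs G x v S ≤ ∑ w ∈ S, x w :=
  sum_le_sum_of_subset_of_nonneg (filter_subset _ _) fun w _ _ => hx0 w

theorem fs_union (x : V → ℝ) (v : V) (S T : Finset V) (h : Disjoint S T) :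
    fs G x v (S ∪ T) = fs G x v S + fs G x v T := by
  unfold fs
  rw [filter_union, sum_union (disjoint_filter_filter h)]

structure Ext (G : SimpleGraph V) [DecidableRel G.Adj] (k : ℕ) (x : V → ℝ) (u : V) (n : ℝ) : Prop where
  card : n = Fintype.card V
  big : 10 ^ 5 < n
  x0 : ∀ v, 0 ≤ x v
  x1 : ∀ v, x v ≤ 1
  xu : x u = 1
  eig : ∀ v, nb G x v = lam G * x v
  low : (n - 1) / 2 ≤ lam G
  no : ¬ (cycleGraph (2 * k + 3)) ⊑ G
  ext : ∀ G' : SimpleGraph V, ¬ (cycleGraph (2 * k + 3)) ⊑ G' → lam G' ≤ lam G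
  hk : ((2 * k + 3 : ℕ) : ℝ) ≤ 2 / 5 * n

theorem rest_card (A B : Finset V) (h : Disjoint A B) :
    (A.card : ℝ) + B.card + (univ \ (A ∪ B)).card = Fintype.card V := by
  have h1 := card_sdiff_add_card_eq_card (subset_univ (A ∪ B))
  rw [card_union_of_disjoint h, card_univ] at h1
  exact_mod_cast (by omega)

theorem dg_split (A B : Finset V) (v : V) :
    (dg G v univ : ℝ) ≤ dg G v A + dg G v B + (univ \ (A ∪ B)).card := by
  have huniv : (univ : Finset V) = A ∪ B ∪ (univ \ (A ∪ B)) := by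
    rw [union_sdiff_of_subset (subset_univ _)]
  have h1 : dg G v univ ≤ dg G v A + dg G v B + dg G v (univ \ (A ∪ B)) := by
    calc dg G v univ = dg G v (A ∪ B ∪ (univ \ (A ∪ B))) := by rw [← huniv]
      _ ≤ _ := (dg_union_le G v _ _).trans (Nat.add_le_add_right (dg_union_le G v _ _) _)
  have h2 := dg_le_card G v (univ \ (A ∪ B))
  exact_mod_cast (by omega)

theorem exists_of_dg_ne (v : V) (A : Finset V) (h : dg G v A ≠ 0) : ∃ a ∈ A, G.Adj v a := by
  unfold dg at h
  obtain ⟨a, ha⟩ := card_pos.mp (Nat.pos_of_ne_zero h)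
  rw [mem_filter] at ha
  exact ⟨a, ha.1, ha.2⟩

theorem dg_ne_of_adj (v a : V) (A : Finset V) (ha : a ∈ A) (h : G.Adj v a) : dg G v A ≠ 0 := by
  unfold dg
  exact (card_pos.mpr ⟨a, mem_filter.mpr ⟨ha, h⟩⟩).ne'

theorem step2' [Nonempty V] (k : ℕ) (x : V → ℝ) (u : V) (n : ℝ) (h : Ext G k x u n) (A B : Finset V) (s : ℝ)
    (hs : s = 1 / 2000) (hNB : NB G A B s n) (hA : lam G - 5 * s * n ≤ ∑ a ∈ A, x a) :
    lam G ^ 2 ≤ ((Fintype.card V ^ 2 / 4 : ℕ) : ℝ) := by
  obtain ⟨l, hl⟩ : ∃ l, l = lam G := ⟨_, rfl⟩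
  rw [← hl] at hA ⊢
  have heig := h.eig
  have hlow := h.low
  rw [← hl] at heig hlow
  have hn5 := h.big
  have hn0 : 0 < n := by linarith
  have hl0 : 0 < l := by linarith
  have hcard := rest_card A B hNB.disj
  rw [← h.card] at hcard
  set D : Finset V := univ \ (A ∪ B) with hD
  have hcA := hNB.cA
  have hcB := hNB.cB
  have hDc : (D.card : ℝ) ≤ 4 * s * n := by linarith
  have hsn : s * n = n / 2000 := by rw [hs]; ring
  have exA := fun v a ha hva => excl G A B s n hNB (by rw [hs]; norm_num) (by rw [hs]; norm_num) (by linarith) k h.hk h.no v a ha hva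
  have exB := fun v a ha hva => excl G B A s n (NB.symm' G hNB) (by rw [hs]; norm_num) (by rw [hs]; norm_num) (by linarith) k h.hk h.no v a ha hva
  have dsplit := fun v => dg_split G A B v
  -- degree upper bound
  have degup : ∀ v, (dg G v univ : ℝ) ≤ (1 / 2 + 2 * s) * n := by
    intro v
    have h0 := dsplit v
    rw [← hD] at h0
    have ha := dg_le_card G v A
    have hb := dg_le_card G v B
    have ha' : (dg G v A : ℝ) ≤ A.card := by exact_mod_cast ha
    have hb' : (dg G v B : ℝ) ≤ B.card := by exact_mod_cast hb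
    by_cases c1 : dg G v A = 0
    · rw [c1] at h0
      push_cast at h0
      linarith
    · obtain ⟨a, haA, hva⟩ := exists_of_dg_ne G v A c1
      have h1 := exA v a haA hva
      by_cases c2 : dg G v B = 0
      · rw [c2] at h0
        push_cast at h0
        linarith
      · obtain ⟨b, hbB, hvb⟩ := exists_of_dg_ne G v B c2
        have h2 := exB v b hbB hvb
        linarith
  have hlup : l ≤ (1 / 2 + 2 * s) * n := by
    have h1 := heig u
    rw [h.xu, mul_one, nb_fs] at h1
    rw [← h1]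
    exact (fs_le_dg G x h.x1 u univ).trans (degup u)
  -- switching
  have hκ : ∀ P Q' : Finset V, (∀ a ∈ P, (Q'.card : ℝ) - dg G a Q' ≤ s * n) → (1 / 2 - 2 * s) * n ≤ Q'.card →
      ∀ z, z ∉ P → ∑ p ∈ P, x p ≤ l * x z := by
    intro P Q' hP hQ' z hz
    apply kappa G x l hl0 h.x0 heig z P hz
    rw [hl]
    apply h.ext
    apply sw_free' G (2 * k + 1) (by omega) z P _ h.no
    intro a ha b hb _ U hU
    have hU' : (U.card : ℝ) ≤ 2 / 5 * n := by
      refine le_trans ?_ h.hk
      exact_mod_cast hU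
    obtain ⟨c, -, hcU, h1, h2⟩ := fresh2 G a b Q' U (s * n) (hP a ha) (hP b hb) (by linarith)
    exact ⟨c, hcU, h1.symm, h2.symm⟩
  have hz1 : ∀ z, z ∉ A → 1 - 11 * s ≤ x z := by
    intro z hz
    have h1 := hκ A B hNB.mA hcB z hz
    have h2 : l * (1 - 11 * s) ≤ l * x z := by
      rw [hs] at *
      linarith
    exact le_of_mul_le_mul_left h2 hl0
  have hβ : (1 / 2 - 15 / 2 * s) * n ≤ ∑ b ∈ B, x b := by
    have h1 : (B.card : ℝ) * (1 - 11 * s) ≤ ∑ b ∈ B, x b := by
      calc (B.card : ℝ) * (1 - 11 * s) = ∑ b ∈ B, (1 - 11 * s) := by rw [sum_const, nsmul_eq_mul]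
        _ ≤ _ := sum_le_sum fun b hb => hz1 b (fun hbA => Finset.disjoint_left.mp hNB.disj hbA hb)
    refine le_trans ?_ h1
    rw [hs] at *
    linarith
  have hz2 : ∀ z, z ∉ B → 1 - 19 * s ≤ x z := by
    intro z hz
    have h1 := hκ B A hNB.mB hcA z hz
    have h2 : l * (1 - 19 * s) ≤ l * x z := by
      rw [hs] at *
      linarith
    exact le_of_mul_le_mul_left h2 hl0
  have hz : ∀ z, 1 - 19 * s ≤ x z := by
    intro z
    by_cases c : z ∈ B
    · have := hz1 z (fun hzA => Finset.disjoint_left.mp hNB.disj hzA c)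
      rw [hs] at *
      linarith
    · exact hz2 z c
  have degdown : ∀ z, (1 / 2 - 21 / 2 * s) * n ≤ dg G z univ := by
    intro z
    have h1 := heig z
    rw [nb_fs] at h1
    have h2 := fs_le_dg G x h.x1 z univ
    rw [h1] at h2
    refine le_trans ?_ h2
    have h3 : l * (1 - 19 * s) ≤ l * x z := mul_le_mul_of_nonneg_left (hz z) hl0.le
    refine le_trans ?_ h3
    rw [hs] at *
    linarith
  -- the new bipartition
  set A2 : Finset V := univ.filter fun z => dg G z A = 0 with hA2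
  set B2 : Finset V := univ.filter fun z => ¬ dg G z A = 0 with hB2
  have hA2A : A ⊆ A2 := by
    intro a ha
    rw [hA2, mem_filter]
    refine ⟨mem_univ _, ?_⟩
    by_contra hc
    obtain ⟨a', ha', haa'⟩ := exists_of_dg_ne G a A hc
    have h1 := exA a a' ha' haa'
    have h2 := hNB.mA a ha
    linarith
  have hB2B : B ⊆ B2 := by
    intro b hb
    rw [hB2, mem_filter]
    refine ⟨mem_univ _, ?_⟩
    intro hc
    have h2 := hNB.mB b hb
    rw [hc] at h2
    push_cast at h2
    linarith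
  have hdisj2 : Disjoint A2 B2 := disjoint_filter_filter_not _ _ _
  have hun2 : A2 ∪ B2 = univ := filter_union_filter_not_eq _ _
  have hc2 : A2.card + B2.card = Fintype.card V := by
    rw [← card_union_of_disjoint hdisj2, hun2, card_univ]
  have hc2r : (A2.card : ℝ) + B2.card = n := by rw [h.card]; exact_mod_cast hc2
  have hA2c : (A.card : ℝ) ≤ A2.card := by exact_mod_cast card_le_card hA2A
  have hB2c : (B.card : ℝ) ≤ B2.card := by exact_mod_cast card_le_card hB2B
  have hNB2 : NB G A2 B2 (18 * s) n := by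
    refine ⟨hdisj2, by linarith, by linarith, ?_, ?_⟩
    · intro z hz'
      rw [hA2, mem_filter] at hz'
      have h1 := dsplit z
      rw [hz'.2, ← hD] at h1
      push_cast at h1
      have h2 := degdown z
      have h3 : (dg G z B : ℝ) ≤ dg G z B2 := by exact_mod_cast dg_mono G z hB2B
      linarith
    · intro z hz'
      rw [hB2, mem_filter] at hz'
      obtain ⟨a, haA, hva⟩ := exists_of_dg_ne G z A hz'.2
      have h0 := exA z a haA hva
      have h1 := dsplit z
      rw [← hD] at h1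
      have h2 := degdown z
      have h3 : (dg G z A : ℝ) ≤ dg G z A2 := by exact_mod_cast dg_mono G z hA2A
      linarith
  have indA : ∀ a ∈ A2, dg G a A2 = 0 := by
    intro a ha
    by_contra hc
    obtain ⟨a', ha', haa'⟩ := exists_of_dg_ne G a A2 hc
    have h1 := excl G A2 B2 (18 * s) n hNB2 (by rw [hs]; norm_num) (by rw [hs]; norm_num) (by linarith) k h.hk h.no a a' ha' haa'
    have h2 := hNB2.mA a ha
    linarith
  have indB : ∀ b ∈ B2, dg G b B2 = 0 := by
    intro b hb
    by_contra hc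
    obtain ⟨b', hb', hbb'⟩ := exists_of_dg_ne G b B2 hc
    have h1 := excl G B2 A2 (18 * s) n (NB.symm' G hNB2) (by rw [hs]; norm_num) (by rw [hs]; norm_num) (by linarith) k h.hk h.no b b' hb' hbb'
    have h2 := hNB2.mB b hb
    linarith
  have fs0 : ∀ v (S : Finset V), dg G v S = 0 → fs G x v S = 0 := by
    intro v S hv
    unfold dg at hv
    rw [card_eq_zero] at hv
    unfold fs
    rw [hv, sum_empty]
  have hsA : l * ∑ a ∈ A2, x a ≤ A2.card * ∑ b ∈ B2, x b := by
    rw [mul_sum]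
    calc ∑ a ∈ A2, l * x a ≤ ∑ a ∈ A2, ∑ b ∈ B2, x b := by
          refine sum_le_sum fun a ha => ?_
          rw [← heig a, nb_fs, ← hun2, fs_union G x a A2 B2 hdisj2, fs0 a A2 (indA a ha), zero_add]
          exact fs_le_sum G x h.x0 a B2
      _ = _ := by rw [sum_const, nsmul_eq_mul]
  have hsB : l * ∑ b ∈ B2, x b ≤ B2.card * ∑ a ∈ A2, x a := by
    rw [mul_sum]
    calc ∑ b ∈ B2, l * x b ≤ ∑ b ∈ B2, ∑ a ∈ A2, x a := by
          refine sum_le_sum fun b hb => ?_
          rw [← heig b, nb_fs, ← hun2, fs_union G x b A2 B2 hdisj2, fs0 b B2 (indB b hb), add_zero]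
          exact fs_le_sum G x h.x0 b A2
      _ = _ := by rw [sum_const, nsmul_eq_mul]
  have hpos : 0 < ∑ a ∈ A2, x a := by
    have hne : A2.Nonempty := by
      rw [← card_pos]
      have : (0 : ℝ) < A2.card := by linarith
      exact_mod_cast this
    apply sum_pos _ hne
    intro a _
    have := hz a
    rw [hs] at this
    linarith
  have hfin : l ^ 2 ≤ A2.card * B2.card := by
    have h1 : l ^ 2 * ∑ a ∈ A2, x a ≤ (A2.card * B2.card) * ∑ a ∈ A2, x a := by
      calc l ^ 2 * ∑ a ∈ A2, x a = l * (l * ∑ a ∈ A2, x a) := by ring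
        _ ≤ l * (A2.card * ∑ b ∈ B2, x b) := mul_le_mul_of_nonneg_left hsA hl0.le
        _ = A2.card * (l * ∑ b ∈ B2, x b) := by ring
        _ ≤ A2.card * (B2.card * ∑ a ∈ A2, x a) := mul_le_mul_of_nonneg_left hsB (Nat.cast_nonneg _)
        _ = _ := by ring
    exact le_of_mul_le_mul_right h1 hpos
  refine hfin.trans ?_
  have : A2.card * B2.card ≤ Fintype.card V ^ 2 / 4 := by
    rw [Nat.le_div_iff_mul_le (by norm_num), ← hc2]
    nlinarith [sq_nonneg ((A2.card : ℤ) - B2.card), four_mul_le_sq_add A2.card B2.card]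
  exact_mod_cast this

theorem step2 [Nonempty V] (k : ℕ) (x : V → ℝ) (u : V) (n : ℝ) (h : Ext G k x u n) (A B : Finset V) (s : ℝ)
    (hs : s = 1 / 2000) (hNB : NB G A B s n) :
    lam G ^ 2 ≤ ((Fintype.card V ^ 2 / 4 : ℕ) : ℝ) := by
  have hn5 := h.big
  have hcard := rest_card A B hNB.disj
  rw [← h.card] at hcard
  set D : Finset V := univ \ (A ∪ B) with hD
  have hcA := hNB.cA
  have hcB := hNB.cB
  have hDc : (D.card : ℝ) ≤ 4 * s * n := by linarith
  have hsn : 0 < s * n := by rw [hs]; linarith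
  have h1 := h.eig u
  have huniv : (univ : Finset V) = A ∪ B ∪ D := by
    rw [hD, union_sdiff_of_subset (subset_univ _)]
  rw [h.xu, mul_one, nb_fs, huniv, fs_union G x u (A ∪ B) D (by rw [hD]; exact disjoint_sdiff), fs_union G x u A B hNB.disj] at h1
  have h2 : fs G x u D ≤ D.card := (fs_le_dg G x h.x1 u D).trans (by exact_mod_cast dg_le_card G u D)
  have h3 := fs_le_sum G x h.x0 u A
  have h4 := fs_le_sum G x h.x0 u B
  by_cases c : dg G u A = 0
  · apply step2' G k x u n h B A s hs (NB.symm' G hNB)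
    have h5 := fs_le_dg G x h.x1 u A
    rw [c] at h5
    push_cast at h5
    linarith
  · apply step2' G k x u n h A B s hs hNB
    obtain ⟨a, haA, hva⟩ := exists_of_dg_ne G u A c
    have h5 := excl G A B s n hNB (by rw [hs]; norm_num) (by rw [hs]; norm_num) (by linarith) k h.hk h.no u a haA hva
    have h6 := fs_le_dg G x h.x1 u B
    linarith

end Pool.Agent.Helper91.NC
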